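import Mathlib

/-!
Dickson's lemma in the two forms that are needed: truncation of up-sets, and an optimal fractional
colouring with integer data.
-/

set_option autoImplicit false

namespace Pool.Agent.H89.KW

open Finset

theorem exists_finite_minimal {α : Type*} [PartialOrder α] [WellQuasiOrderedLE α] (S : Set α) :
    ∃ F : Finset α, (∀ m ∈ F, m ∈ S) ∧ ∀ x ∈ S, ∃ m ∈ F, m ≤ x := by
  classical
  set M : Set α := {m | Minimal (· ∈ S) m} with hM
  have hanti : IsAntichain (· ≤ ·) M := by
    intro x hx y hy hxy hle
    exact hxy (le_antisymm hle (hy.2 hx.1 hle))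
  have hfin := WellQuasiOrderedLE.finite_of_isAntichain hanti
  refine ⟨hfin.toFinset, fun m hm => ?_, fun x hx => ?_⟩
  · rw [Set.Finite.mem_toFinset] at hm
    exact hm.1
  · have hwf : WellFounded ((· < ·) : α → α → Prop) := wellFounded_lt
    obtain ⟨m, ⟨hmS, hmx⟩, hmin⟩ := hwf.has_min {y | y ∈ S ∧ y ≤ x} ⟨x, hx, le_rfl⟩
    refine ⟨m, ?_, hmx⟩
    rw [Set.Finite.mem_toFinset]
    refine ⟨hmS, fun y hy hym => ?_⟩
    by_contra hcon
    exact hmin y ⟨hy, hym.trans hmx⟩ (lt_of_le_not_ge hym hcon)

theorem exists_trunc {ι : Type*} [Finite ι] (P : (ι → ℕ) → Prop)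
    (hP : ∀ n n' : ι → ℕ, n ≤ n' → P n → P n') :
    ∃ K : ℕ, ∀ n, P n → P (fun i => min (n i) K) := by
  classical
  have := Fintype.ofFinite ι
  obtain ⟨F, hF, hF'⟩ := exists_finite_minimal {n | P n}
  refine ⟨F.sup (fun m => Finset.univ.sup m), fun n hn => ?_⟩
  obtain ⟨m, hm, hmn⟩ := hF' n hn
  refine hP m _ (fun i => le_min (hmn i) ?_) (hF m hm)
  exact (Finset.le_sup (f := m) (Finset.mem_univ i)).trans
    (Finset.le_sup (f := fun m : ι → ℕ => Finset.univ.sup m) hm)

variable {V : Type*} [Fintype V] [DecidableEq V]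

/-- independent finite sets -/
def Ind (G : SimpleGraph V) (I : Finset V) : Prop := ∀ u ∈ I, ∀ v ∈ I, ¬ G.Adj u v

theorem exists_frac (G : SimpleGraph V) [Nonempty V] :
    ∃ (p q : ℕ) (σ : Fin p → Finset V), 0 < p ∧ 0 < q ∧ (∀ i, Ind G (σ i)) ∧
      (∀ v, q ≤ (Finset.univ.filter fun i => v ∈ σ i).card) ∧
      ∀ (a b : ℕ) (g : Fin a → Finset V), (∀ i, Ind G (g i)) →
        (∀ v, b ≤ (Finset.univ.filter fun i => v ∈ g i).card) → p * b ≤ q * a := by
  classical
  -- data `(κ, b, s)`
  let Valid : ((Finset V → ℕ) × ℕ × (V → ℕ)) → Prop := fun x =>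
    (∀ I, x.1 I ≠ 0 → Ind G I) ∧
      ∀ v, ∑ I ∈ Finset.univ.filter (fun I : Finset V => v ∈ I), x.1 I = x.2.1 + x.2.2 v
  obtain ⟨F, hF, hF'⟩ := exists_finite_minimal {x | Valid x ∧ 0 < x.2.1}
  let tot : ((Finset V → ℕ) × ℕ × (V → ℕ)) → ℕ := fun x => ∑ I, x.1 I
  -- singletons
  have hsing : Valid ((fun I => if I.card = 1 then 1 else 0), 1, fun _ => 0) := by
    constructor
    · intro I hI
      have hI1 : I.card = 1 := by
        by_contra h
        simp [h] at hI
      obtain ⟨u, rfl⟩ := Finset.card_eq_one.mp hI1
      intro x hx y hy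
      rw [Finset.mem_singleton] at hx hy
      subst hx; subst hy
      exact G.loopless.irrefl _
    · intro v
      rw [Finset.sum_eq_single {v}]
      · simp
      · intro I hI hne
        rw [Finset.mem_filter] at hI
        by_cases h : I.card = 1
        · obtain ⟨u, rfl⟩ := Finset.card_eq_one.mp h
          rw [Finset.mem_singleton] at hI
          exact absurd (by rw [hI.2]) hne
        · simp [h]
      · simp
  have hFne : F.Nonempty := by
    obtain ⟨m, hm, -⟩ := hF' _ ⟨hsing, Nat.one_pos⟩
    exact ⟨m, hm⟩
  obtain ⟨m0, hm0, hmin⟩ := Finset.exists_min_image F (fun x => (tot x : ℚ) / x.2.1) hFne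
  have hm0V := hF m0 hm0
  have hb0 : 0 < m0.2.1 := hm0V.2
  have hmin' : ∀ m ∈ F, tot m0 * m.2.1 ≤ tot m * m0.2.1 := by
    intro m hm
    have h1 := hmin m hm
    have h2 : 0 < m.2.1 := (hF m hm).2
    have h3 : (0 : ℚ) < m.2.1 := by exact_mod_cast h2
    have h4 : (0 : ℚ) < m0.2.1 := by exact_mod_cast hb0
    rw [div_le_div_iff₀ h4 h3] at h1
    exact_mod_cast h1
  have key : ∀ N : ℕ, ∀ x, Valid x → x.2.1 ≤ N → tot m0 * x.2.1 ≤ tot x * m0.2.1 := by
    intro N
    induction N with
    | zero =>
      intro x _ hx
      have : x.2.1 = 0 := Nat.le_zero.mp hx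
      rw [this]; simp
    | succ N ih =>
      intro x hx hxN
      by_cases h0 : 0 < x.2.1
      · obtain ⟨m, hm, hmx⟩ := hF' x ⟨hx, h0⟩
        have hmV := hF m hm
        obtain ⟨hm1, hm2, hm3⟩ : m.1 ≤ x.1 ∧ m.2.1 ≤ x.2.1 ∧ m.2.2 ≤ x.2.2 := ⟨hmx.1, hmx.2.1, hmx.2.2⟩
        let y : (Finset V → ℕ) × ℕ × (V → ℕ) := (x.1 - m.1, x.2.1 - m.2.1, x.2.2 - m.2.2)
        have hy : Valid y := by
          constructor
          · intro I hI
            apply hx.1 I
            intro h
            apply hI
            simp [y, h]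
          · intro v
            have h1 := hx.2 v
            have h2 := hmV.1.2 v
            have h3 : ∑ I ∈ Finset.univ.filter (fun I : Finset V => v ∈ I), y.1 I +
                ∑ I ∈ Finset.univ.filter (fun I : Finset V => v ∈ I), m.1 I =
                ∑ I ∈ Finset.univ.filter (fun I : Finset V => v ∈ I), x.1 I := by
              rw [← Finset.sum_add_distrib]
              refine Finset.sum_congr rfl fun I _ => ?_
              have h5 : m.1 I ≤ x.1 I := hm1 I
              change x.1 I - m.1 I + m.1 I = x.1 I
              omega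
            have h4 : m.2.2 v ≤ x.2.2 v := hm3 v
            change ∑ I ∈ Finset.univ.filter (fun I : Finset V => v ∈ I), y.1 I =
              (x.2.1 - m.2.1) + (x.2.2 v - m.2.2 v)
            omega
        have hyN : y.2.1 ≤ N := by
          have : 0 < m.2.1 := hmV.2
          simp only [y]
          omega
        have h5 := ih y hy hyN
        have h6 := hmin' m hm
        have h7 : tot y + tot m = tot x := by
          simp only [tot]
          rw [← Finset.sum_add_distrib]
          refine Finset.sum_congr rfl fun I _ => ?_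
          have h9 : m.1 I ≤ x.1 I := hm1 I
          change x.1 I - m.1 I + m.1 I = x.1 I
          omega
        have h8 : y.2.1 + m.2.1 = x.2.1 := by
          simp only [y]
          omega
        rw [← h7, ← h8]
        nlinarith
      · have : x.2.1 = 0 := by omega
        rw [this]; simp
  -- the enumeration
  have hcard : Fintype.card (Σ I : Finset V, Fin (m0.1 I)) = tot m0 := by
    simp [tot]
  let e : (Σ I : Finset V, Fin (m0.1 I)) ≃ Fin (tot m0) := Fintype.equivFinOfCardEq hcard
  have hcount : ∀ v, (Finset.univ.filter fun i : Fin (tot m0) => v ∈ (e.symm i).1).card =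
      m0.2.1 + m0.2.2 v := by
    intro v
    rw [← hm0V.1.2 v]
    have h1 : (Finset.univ.filter fun i : Fin (tot m0) => v ∈ (e.symm i).1).card =
        (Finset.univ.filter fun x : (Σ I : Finset V, Fin (m0.1 I)) => v ∈ x.1).card := by
      refine Finset.card_bij (fun i _ => e.symm i) ?_ ?_ ?_
      · intro i hi
        simpa using hi
      · intro i _ j _ h
        exact e.symm.injective h
      · intro x hx
        exact ⟨e x, by simpa using hx, by simp⟩
    rw [h1, Finset.card_filter, Fintype.sum_sigma, Finset.sum_filter]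
    refine Finset.sum_congr rfl fun I _ => ?_
    by_cases h : v ∈ I <;> simp [h]
  refine ⟨tot m0, m0.2.1, fun i => (e.symm i).1, ?_, hb0, ?_, ?_, ?_⟩
  · obtain ⟨v⟩ := ‹Nonempty V›
    have h1 := hm0V.1.2 v
    have h2 : ∑ I ∈ Finset.univ.filter (fun I : Finset V => v ∈ I), m0.1 I ≤ tot m0 :=
      Finset.sum_le_sum_of_subset (Finset.filter_subset _ _)
    omega
  · intro i
    have h1 : 0 < m0.1 (e.symm i).1 := lt_of_le_of_lt (Nat.zero_le _) (e.symm i).2.2
    exact hm0V.1.1 _ (Nat.pos_iff_ne_zero.mp h1)
  · intro v
    rw [hcount v]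
    omega
  · intro a b g hg hgb
    have hval : Valid ((fun I => (Finset.univ.filter fun i => g i = I).card), b,
        fun v => (Finset.univ.filter fun i => v ∈ g i).card - b) := by
      constructor
      · intro I hI
        have hI' : (Finset.univ.filter fun i => g i = I).card ≠ 0 := hI
        obtain ⟨i, hi⟩ := Finset.card_ne_zero.mp hI'
        rw [Finset.mem_filter] at hi
        rw [← hi.2]
        exact hg i
      · intro v
        have h1 : ∑ I ∈ Finset.univ.filter (fun I : Finset V => v ∈ I),
            (Finset.univ.filter fun i => g i = I).card = (Finset.univ.filter fun i => v ∈ g i).card := by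
          rw [Finset.card_eq_sum_card_fiberwise (f := g) (s := Finset.univ.filter fun i => v ∈ g i)
            (t := Finset.univ.filter (fun I : Finset V => v ∈ I))]
          · refine Finset.sum_congr rfl fun I hI => ?_
            rw [Finset.mem_filter] at hI
            congr 1
            ext i
            simp only [Finset.mem_filter, Finset.mem_univ, true_and]
            constructor
            · intro h
              exact ⟨by rw [h]; exact hI.2, h⟩
            · intro h
              exact h.2
          · intro i hi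
            simpa using hi
        have h2 := hgb v
        simp only
        rw [h1]
        omega
    have h := key b _ hval le_rfl
    have h1 : tot ((fun I => (Finset.univ.filter fun i => g i = I).card), b,
        fun v => (Finset.univ.filter fun i => v ∈ g i).card - b) = a := by
      simp only [tot]
      have := Finset.card_eq_sum_card_fiberwise (f := g) (s := Finset.univ) (t := Finset.univ)
        (by intro i _; simp)
      rw [Finset.card_univ, Fintype.card_fin] at this
      exact this.symm
    rw [h1] at h
    calc tot m0 * b ≤ a * m0.2.1 := h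
      _ = m0.2.1 * a := Nat.mul_comm _ _

end Pool.Agent.H89.KW
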