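import Mathlib
import Pool.Agent.H89.KW.Dickson

/-!
All but boundedly many colours can be coloured in blocks by cyclic shifts of an optimal fractional
colouring; derandomised choice of the shifts.
-/

set_option autoImplicit false

namespace Pool.Agent.H89.KW

open Finset

variable {V : Type*} [Fintype V] [DecidableEq V]

/-- number of colours in `K` of type `T` -/
def cnt (K : Finset ℕ) (τ : ℕ → Finset V) (T : Finset V) : ℕ := (K.filter fun c => τ c = T).card

/-- number of colours in `K` that `v` receives from its list -/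
def cov (K : Finset ℕ) (τ g : ℕ → Finset V) (v : V) : ℕ :=
  (K.filter fun c => v ∈ τ c ∧ v ∈ g c).card

/-- the instance `(K, τ)` with demands `d` has a solution -/
def Feas (G : SimpleGraph V) (K : Finset ℕ) (τ : ℕ → Finset V) (d : V → ℤ) : Prop :=
  ∃ g : ℕ → Finset V, (∀ c, Ind G (g c)) ∧ ∀ v, d v ≤ cov K τ g v

theorem Feas.transport {G : SimpleGraph V} {K K' : Finset ℕ} {τ τ' : ℕ → Finset V}
    (h : ∀ T, cnt K' τ' T = cnt K τ T) {d : V → ℤ} (hF : Feas G K τ d) : Feas G K' τ' d := by
  classical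
  obtain ⟨g, hg, hd⟩ := hF
  have hcard : ∀ T, Fintype.card {x : {x // x ∈ K'} // τ' x = T} =
      Fintype.card {x : {x // x ∈ K} // τ x = T} := by
    intro T
    have h1 : ∀ (K : Finset ℕ) (τ : ℕ → Finset V), Fintype.card {x : {x // x ∈ K} // τ x = T} =
        cnt K τ T := by
      intro K τ
      rw [Fintype.card_subtype]
      unfold cnt
      refine Finset.card_bij (fun x _ => x.1) ?_ ?_ ?_
      · intro x hx
        rw [Finset.mem_filter] at hx ⊢
        exact ⟨x.2, hx.2⟩
      · intro x _ y _ hxy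
        exact Subtype.ext hxy
      · intro c hc
        rw [Finset.mem_filter] at hc
        exact ⟨⟨c, hc.1⟩, by simpa using hc.2, rfl⟩
    rw [h1, h1]
    exact h T
  let e : {x // x ∈ K'} ≃ {x // x ∈ K} :=
    Equiv.ofFiberEquiv (f := fun x : {x // x ∈ K'} => τ' x) (g := fun x : {x // x ∈ K} => τ x)
      (fun T => Fintype.equivOfCardEq (hcard T))
  have he : ∀ x : {x // x ∈ K'}, τ (e x) = τ' x := fun x =>
    Equiv.ofFiberEquiv_map (f := fun x : {x // x ∈ K'} => τ' x)
      (g := fun x : {x // x ∈ K} => τ x) _ x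
  refine ⟨fun c => if hc : c ∈ K' then g (e ⟨c, hc⟩) else ∅, fun c => ?_, fun v => ?_⟩
  · by_cases hc : c ∈ K'
    · simp only [hc, dif_pos]
      exact hg _
    · simp only [hc, dif_neg, not_false_iff]
      intro u hu
      simp at hu
  · refine (hd v).trans (le_of_eq ?_)
    norm_cast
    unfold cov
    symm
    refine Finset.card_bij (fun c hc => ((e ⟨c, (Finset.mem_filter.mp hc).1⟩ : {x // x ∈ K}) : ℕ))
      ?_ ?_ ?_
    · intro c hc
      rw [Finset.mem_filter] at hc
      obtain ⟨h1, h2, h3⟩ := hc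
      simp only [h1, dif_pos] at h3
      rw [Finset.mem_filter, he]
      exact ⟨(e ⟨c, h1⟩).2, h2, h3⟩
    · intro c hc c' hc' hcc
      have := e.injective (Subtype.ext hcc)
      exact congrArg Subtype.val this
    · intro c hc
      rw [Finset.mem_filter] at hc
      obtain ⟨h1, h2, h3⟩ := hc
      refine ⟨(e.symm ⟨c, h1⟩ : {x // x ∈ K'}), ?_, by simp⟩
      rw [Finset.mem_filter]
      refine ⟨(e.symm ⟨c, h1⟩).2, ?_, ?_⟩
      · rw [← he]
        simpa using h2
      · simp only [(e.symm ⟨c, h1⟩).2, dif_pos, Subtype.coe_eta, Equiv.apply_symm_apply]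
        exact h3

/-- all instances with `p * n T + r T` colours of type `T` are feasible with demand
`β v + q * ∑_{T ∋ v} n T` -/
def PP (G : SimpleGraph V) (p q : ℕ) (r : Finset V → ℕ) (β : V → ℤ) (n : Finset V → ℕ) : Prop :=
  ∀ (K : Finset ℕ) (τ : ℕ → Finset V), (∀ T, cnt K τ T = p * n T + r T) →
    Feas G K τ fun v => β v + q * ∑ T ∈ Finset.univ.filter (fun T : Finset V => v ∈ T), (n T : ℤ)

theorem PP.of_feas {G : SimpleGraph V} {p q : ℕ} {r : Finset V → ℕ} {β : V → ℤ}
    {n : Finset V → ℕ} {K : Finset ℕ} {τ : ℕ → Finset V} (h : ∀ T, cnt K τ T = p * n T + r T)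
    (hF : Feas G K τ fun v =>
      β v + q * ∑ T ∈ Finset.univ.filter (fun T : Finset V => v ∈ T), (n T : ℤ)) :
    PP G p q r β n := by
  intro K' τ' h'
  exact hF.transport fun T => by rw [h, h']

/-- enumeration of a block -/
theorem exists_pos {p : ℕ} [NeZero p] (D : Finset ℕ) (hD : D.card = p) :
    ∃ pos : ℕ → ZMod p, Set.InjOn pos D ∧ ∀ i, ∃ c ∈ D, pos c = i := by
  classical
  have hcard : Fintype.card {x // x ∈ D} = Fintype.card (ZMod p) := by
    rw [Fintype.card_coe, hD, ZMod.card]
  let e := Fintype.equivOfCardEq hcard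
  refine ⟨fun c => if hc : c ∈ D then e ⟨c, hc⟩ else 0, ?_, fun i => ?_⟩
  · intro c hc c' hc' h
    have hc1 : c ∈ D := hc
    have hc2 : c' ∈ D := hc'
    simp only [hc1, hc2, dif_pos] at h
    exact congrArg Subtype.val (e.injective h)
  · refine ⟨(e.symm i : {x // x ∈ D}), (e.symm i).2, ?_⟩
    simp only [(e.symm i).2, dif_pos, Subtype.coe_eta, Equiv.apply_symm_apply]

theorem sum_pos {p : ℕ} [NeZero p] {D : Finset ℕ} {pos : ℕ → ZMod p} (h1 : Set.InjOn pos D)
    (h2 : ∀ i, ∃ c ∈ D, pos c = i) {M : Type*} [AddCommMonoid M] (F : ZMod p → M) :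
    ∑ c ∈ D, F (pos c) = ∑ i, F i := by
  classical
  have : (Finset.univ : Finset (ZMod p)) = D.image pos := by
    ext i
    simp only [Finset.mem_univ, Finset.mem_image, true_iff]
    exact h2 i
  rw [this, Finset.sum_image h1]

/-- coverage inside a block -/
theorem block_cov {p q : ℕ} [NeZero p] {σ : ZMod p → Finset V}
    (hq : ∀ v, q ≤ (Finset.univ.filter fun i => v ∈ σ i).card) {D : Finset ℕ} {pos : ℕ → ZMod p}
    (h1 : Set.InjOn pos D) (h2 : ∀ i, ∃ c ∈ D, pos c = i) (s : ZMod p) (v : V) :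
    q ≤ (D.filter fun c => v ∈ σ (pos c + s)).card := by
  classical
  refine (hq v).trans (le_of_eq ?_)
  rw [Finset.card_filter, Finset.card_filter,
    sum_pos h1 h2 (fun i => if v ∈ σ (i + s) then 1 else 0)]
  exact (Equiv.sum_comp (Equiv.addRight s) (fun i => if v ∈ σ i then 1 else 0)).symm

theorem cov_add_block {K D : Finset ℕ} {τ g' : ℕ → Finset V} {T : Finset V} {p q : ℕ} [NeZero p]
    {σ : ZMod p → Finset V} (hq : ∀ v, q ≤ (Finset.univ.filter fun i => v ∈ σ i).card)
    (hDK : D ⊆ K) (hDT : ∀ c ∈ D, τ c = T) {pos : ℕ → ZMod p}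
    (h1 : Set.InjOn pos D) (h2 : ∀ i, ∃ c ∈ D, pos c = i) (s : ZMod p) (v : V) :
    cov (K \ D) τ g' v + (if v ∈ T then q else 0) ≤
      cov K τ (fun c => if c ∈ D then σ (pos c + s) else g' c) v := by
  classical
  unfold cov
  have hsub : ((K \ D).filter fun c => v ∈ τ c ∧ v ∈ g' c) ∪
      (D.filter fun c => v ∈ τ c ∧ v ∈ σ (pos c + s)) ⊆
      K.filter fun c => v ∈ τ c ∧ v ∈ (if c ∈ D then σ (pos c + s) else g' c) := by
    intro c hc
    rw [Finset.mem_union, Finset.mem_filter, Finset.mem_filter, Finset.mem_sdiff] at hc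
    rw [Finset.mem_filter]
    rcases hc with ⟨⟨hc1, hc2⟩, hc3, hc4⟩ | ⟨hc1, hc2, hc3⟩
    · exact ⟨hc1, hc3, by simp only [hc2, if_false]; exact hc4⟩
    · exact ⟨hDK hc1, hc2, by simp only [hc1, if_true]; exact hc3⟩
  refine le_trans ?_ (Finset.card_le_card hsub)
  rw [Finset.card_union_of_disjoint]
  · refine Nat.add_le_add_left ?_ _
    split_ifs with hv
    · refine (block_cov hq h1 h2 s v).trans (Finset.card_le_card ?_)
      intro c hc
      rw [Finset.mem_filter] at hc ⊢
      exact ⟨hc.1, by rw [hDT c hc.1]; exact hv, hc.2⟩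
    · exact Nat.zero_le _
  · rw [Finset.disjoint_left]
    intro c hc hc'
    rw [Finset.mem_filter, Finset.mem_sdiff] at hc
    rw [Finset.mem_filter] at hc'
    exact hc.1.2 hc'.1

theorem cnt_sdiff {K D : Finset ℕ} {τ : ℕ → Finset V} {T : Finset V} (hDK : D ⊆ K)
    (hDT : ∀ c ∈ D, τ c = T) (T' : Finset V) :
    cnt (K \ D) τ T' + (if T' = T then D.card else 0) = cnt K τ T' := by
  classical
  unfold cnt
  split_ifs with h
  · subst h
    rw [← Finset.card_union_of_disjoint]
    · congr 1
      ext c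
      simp only [Finset.mem_union, Finset.mem_filter, Finset.mem_sdiff]
      constructor
      · rintro (⟨⟨h1, _⟩, h2⟩ | h1)
        · exact ⟨h1, h2⟩
        · exact ⟨hDK h1, hDT c h1⟩
      · rintro ⟨h1, h2⟩
        by_cases h3 : c ∈ D
        · exact Or.inr h3
        · exact Or.inl ⟨⟨h1, h3⟩, h2⟩
    · rw [Finset.disjoint_left]
      intro c hc hc'
      rw [Finset.mem_filter, Finset.mem_sdiff] at hc
      exact hc.1.2 hc'
  · rw [add_zero]
    congr 1
    ext c
    simp only [Finset.mem_filter, Finset.mem_sdiff]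
    constructor
    · rintro ⟨⟨h1, _⟩, h2⟩
      exact ⟨h1, h2⟩
    · rintro ⟨h1, h2⟩
      exact ⟨⟨h1, fun h3 => h (by rw [← h2, hDT c h3])⟩, h2⟩

theorem PP.step {G : SimpleGraph V} {p q : ℕ} [NeZero p] {σ : ZMod p → Finset V}
    (hσ : ∀ i, Ind G (σ i)) (hq : ∀ v, q ≤ (Finset.univ.filter fun i => v ∈ σ i).card)
    {r : Finset V → ℕ} {β : V → ℤ} {n : Finset V → ℕ} (T : Finset V) (hn : PP G p q r β n) :
    PP G p q r β (n + Pi.single T 1) := by
  classical
  intro K τ h
  have hT : p ≤ cnt K τ T := by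
    rw [h T]
    simp only [Pi.add_apply, Pi.single_eq_same]
    nlinarith
  obtain ⟨D, hD, hDp⟩ := Finset.exists_subset_card_eq hT
  have hDK : D ⊆ K := hD.trans (Finset.filter_subset _ _)
  have hDT : ∀ c ∈ D, τ c = T := fun c hc => (Finset.mem_filter.mp (hD hc)).2
  obtain ⟨pos, h1, h2⟩ := exists_pos D hDp
  obtain ⟨g', hg', hd⟩ := hn (K \ D) τ (by
    intro T'
    have h3 := cnt_sdiff hDK hDT T'
    rw [h T', hDp] at h3
    by_cases hTT : T' = T
    · subst hTT
      simp only [if_true, Pi.add_apply, Pi.single_eq_same] at h3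
      have : p * (n T' + 1) = p * n T' + p := by ring
      omega
    · simp only [hTT, if_false, Pi.add_apply, Pi.single_eq_of_ne hTT, add_zero] at h3
      exact h3)
  refine ⟨fun c => if c ∈ D then σ (pos c + 0) else g' c, fun c => ?_, fun v => ?_⟩
  · by_cases hc : c ∈ D
    · simp only [hc, if_true]
      exact hσ _
    · simp only [hc, if_false]
      exact hg' _
  · have h4 := cov_add_block (g' := g') hq hDK hDT h1 h2 0 v
    have h5 := hd v
    have h6 : ∑ T' ∈ Finset.univ.filter (fun T : Finset V => v ∈ T),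
        (((n + (Pi.single T 1 : Finset V → ℕ) : Finset V → ℕ) T' : ℕ) : ℤ) =
        ∑ T' ∈ Finset.univ.filter (fun T : Finset V => v ∈ T), (n T' : ℤ) +
          (if v ∈ T then 1 else 0) := by
      simp only [Pi.add_apply, Nat.cast_add, Finset.sum_add_distrib]
      congr 1
      rw [Finset.sum_filter]
      rw [Finset.sum_eq_single T]
      · simp
      · intro T' _ hne
        simp [Pi.single_eq_of_ne hne]
      · simp
    simp only at h5 ⊢
    rw [h6]
    have h7 : ((cov (K \ D) τ g' v : ℤ) + (if v ∈ T then (q : ℤ) else 0)) ≤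
        (cov K τ (fun c => if c ∈ D then σ (pos c + 0) else g' c) v : ℤ) := by
      have : ((if v ∈ T then (q : ℤ) else 0) : ℤ) = ((if v ∈ T then q else 0 : ℕ) : ℤ) := by
        split_ifs <;> simp
      rw [this]
      exact_mod_cast h4
    split_ifs at h7 ⊢ with hv
    · linarith
    · linarith

theorem mono_of_step {ι : Type*} [Fintype ι] [DecidableEq ι] (P : (ι → ℕ) → Prop)
    (h : ∀ n i, P n → P (n + Pi.single i 1)) : ∀ n n' : ι → ℕ, n ≤ n' → P n → P n' := by
  have key : ∀ N : ℕ, ∀ n n' : ι → ℕ, n ≤ n' → ∑ i, (n' i - n i) ≤ N → P n → P n' := by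
    intro N
    induction N with
    | zero =>
      intro n n' hnn hN hn
      have h1 : n = n' := by
        funext i
        have h2 : n' i - n i ≤ ∑ i, (n' i - n i) :=
          Finset.single_le_sum (f := fun i => n' i - n i) (fun _ _ => Nat.zero_le _)
            (Finset.mem_univ i)
        have h3 : n i ≤ n' i := hnn i
        omega
      rw [← h1]; exact hn
    | succ N ih =>
      intro n n' hnn hN hn
      by_cases hex : ∃ i, n i < n' i
      · obtain ⟨i, hi⟩ := hex
        refine ih (n + Pi.single i 1) n' ?_ ?_ (h n i hn)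
        · intro j
          by_cases hj : j = i
          · subst hj
            simp only [Pi.add_apply, Pi.single_eq_same]
            exact hi
          · simp only [Pi.add_apply, Pi.single_eq_of_ne hj, add_zero]
            exact hnn j
        · have h1 : ∑ j, (n' j - (n + (Pi.single i 1 : ι → ℕ) : ι → ℕ) j) < ∑ j, (n' j - n j) := by
            refine Finset.sum_lt_sum (fun j _ => ?_) ⟨i, Finset.mem_univ i, ?_⟩
            · simp only [Pi.add_apply]
              omega
            · simp only [Pi.add_apply, Pi.single_eq_same]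
              omega
          omega
      · push Not at hex
        have h1 : n = n' := le_antisymm hnn hex
        rw [← h1]; exact hn
  intro n n' hnn hn
  exact key _ n n' hnn le_rfl hn

theorem PP.mono {G : SimpleGraph V} {p q : ℕ} [NeZero p] {σ : ZMod p → Finset V}
    (hσ : ∀ i, Ind G (σ i)) (hq : ∀ v, q ≤ (Finset.univ.filter fun i => v ∈ σ i).card)
    {r : Finset V → ℕ} {β : V → ℤ} {n n' : Finset V → ℕ} (hnn : n ≤ n') (hn : PP G p q r β n) :
    PP G p q r β n' := by
  classical
  exact mono_of_step (PP G p q r β) (fun n T h => h.step hσ hq T) n n' hnn hn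

end Pool.Agent.H89.KW
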