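import Mathlib
import Pool.Agent.H89.KW.Block

/-!
The main induction: derandomised shifts.
-/

set_option autoImplicit false

namespace Pool.Agent.H89.KW

open Finset

variable {V : Type*} [Fintype V] [DecidableEq V]

theorem exp_bound {l x : ℝ} (h0 : 0 ≤ x) (h1 : x ≤ 1) :
    Real.exp (-l * x) ≤ 1 - (1 - Real.exp (-l)) * x := by
  have h := convexOn_exp.2 (Set.mem_univ (0 : ℝ)) (Set.mem_univ (-l)) (sub_nonneg.mpr h1) h0
    (by ring)
  simp only [smul_eq_mul, mul_zero, zero_add, Real.exp_zero, mul_one] at h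
  calc Real.exp (-l * x) = Real.exp (x * -l) := by ring_nf
    _ ≤ 1 - x + x * Real.exp (-l) := h
    _ = _ := by ring

/-- averaging over the shifts of one block -/
theorem block_avg {p q : ℕ} [NeZero p] {σ : ZMod p → Finset V}
    (hq : ∀ v, q ≤ (Finset.univ.filter fun i => v ∈ σ i).card) {D : Finset ℕ} {pos : ℕ → ZMod p}
    (hD : D.card = p) (v : V) {W : ℕ → ℝ} (hW0 : ∀ c, 0 ≤ W c)
    (hW1 : ∀ c, W c ≤ 1 / p) {l : ℝ} (hl : 0 ≤ l) :
    ∑ s : ZMod p, Real.exp (-l * ∑ c ∈ D.filter (fun c => v ∈ σ (pos c + s)), W c) ≤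
      p * Real.exp (-((1 - Real.exp (-l)) * q / p) * ∑ c ∈ D, W c) := by
  have hp : (0 : ℝ) < p := by exact_mod_cast Nat.pos_of_ne_zero (NeZero.ne p)
  have hl1 : 0 ≤ 1 - Real.exp (-l) := by
    rw [sub_nonneg, Real.exp_le_one_iff]; linarith
  have hf1 : ∀ s : ZMod p, ∑ c ∈ D.filter (fun c => v ∈ σ (pos c + s)), W c ≤ 1 := by
    intro s
    calc ∑ c ∈ D.filter (fun c => v ∈ σ (pos c + s)), W c ≤ ∑ c ∈ D, W c :=
          Finset.sum_le_sum_of_subset_of_nonneg (Finset.filter_subset _ _) fun c _ _ => hW0 c
      _ ≤ ∑ c ∈ D, 1 / (p : ℝ) := Finset.sum_le_sum fun c _ => hW1 c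
      _ = 1 := by
        rw [Finset.sum_const, hD, nsmul_eq_mul]
        field_simp
  have hsum : (q : ℝ) * ∑ c ∈ D, W c ≤
      ∑ s : ZMod p, ∑ c ∈ D.filter (fun c => v ∈ σ (pos c + s)), W c := by
    simp_rw [Finset.sum_filter]
    rw [Finset.sum_comm, Finset.mul_sum]
    refine Finset.sum_le_sum fun c _ => ?_
    have h1 : ∑ s : ZMod p, (if v ∈ σ (pos c + s) then W c else 0) =
        ((Finset.univ.filter fun i => v ∈ σ i).card : ℝ) * W c := by
      have h2 : ∑ s : ZMod p, (if v ∈ σ (pos c + s) then W c else 0) =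
          ∑ i, (if v ∈ σ i then W c else 0) :=
        Equiv.sum_comp (Equiv.addLeft (pos c)) (fun i => if v ∈ σ i then W c else 0)
      rw [h2, ← Finset.sum_filter, Finset.sum_const, nsmul_eq_mul]
    rw [h1]
    exact mul_le_mul_of_nonneg_right (by exact_mod_cast hq v) (hW0 c)
  calc ∑ s : ZMod p, Real.exp (-l * ∑ c ∈ D.filter (fun c => v ∈ σ (pos c + s)), W c)
      ≤ ∑ s : ZMod p, (1 - (1 - Real.exp (-l)) *
          ∑ c ∈ D.filter (fun c => v ∈ σ (pos c + s)), W c) :=
        Finset.sum_le_sum fun s _ => exp_bound (Finset.sum_nonneg fun c _ => hW0 c) (hf1 s)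
    _ = p - (1 - Real.exp (-l)) *
          ∑ s : ZMod p, ∑ c ∈ D.filter (fun c => v ∈ σ (pos c + s)), W c := by
        rw [Finset.sum_sub_distrib, ← Finset.mul_sum, Finset.sum_const, Finset.card_univ,
          ZMod.card, nsmul_eq_mul, mul_one]
    _ ≤ p - (1 - Real.exp (-l)) * (q * ∑ c ∈ D, W c) := by
        have := mul_le_mul_of_nonneg_left hsum hl1
        linarith
    _ = p * (1 + (-((1 - Real.exp (-l)) * q / p) * ∑ c ∈ D, W c)) := by
        field_simp
        ring
    _ ≤ p * Real.exp (-((1 - Real.exp (-l)) * q / p) * ∑ c ∈ D, W c) := by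
        refine mul_le_mul_of_nonneg_left ?_ hp.le
        have := Real.add_one_le_exp (-((1 - Real.exp (-l)) * q / p) * ∑ c ∈ D, W c)
        linarith

theorem main_ind (G : SimpleGraph V) {p q : ℕ} [NeZero p] {σ : ZMod p → Finset V}
    (hσ : ∀ i, Ind G (σ i)) (hq : ∀ v, q ≤ (Finset.univ.filter fun i => v ∈ σ i).card)
    {r : Finset V → ℕ} {β : V → ℤ} {Kc : ℕ} (hr : ∀ T, r T ≤ p)
    (hK : ∀ n, PP G p q r β n → PP G p q r β fun T => min (n T) Kc)
    {l : ℝ} (hl : 0 ≤ l) {E : Type*} [Fintype E] (vert : E → V) (W : E → ℕ → ℝ)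
    (hW0 : ∀ e c, 0 ≤ W e c) (hW1 : ∀ e c, W e c ≤ 1 / p) (τ : ℕ → Finset V) :
    ∀ (N : ℕ) (K : Finset ℕ) (n : Finset V → ℕ), ∑ T, n T ≤ N →
      (∀ T, cnt K τ T = p * n T + r T) → PP G p q r β n →
      ∃ E0 ⊆ K, E0.card ≤ Fintype.card (Finset V) * (p * (Kc + 1)) ∧
        ∀ w : E → ℝ, (∀ e, 0 ≤ w e) → ∃ g : ℕ → Finset V, (∀ c, Ind G (g c)) ∧
          (∀ v, β v + q * ∑ T ∈ Finset.univ.filter (fun T : Finset V => v ∈ T), (n T : ℤ) ≤
            cov K τ g v) ∧
          ∑ e, w e * Real.exp (-l * ∑ c ∈ K.filter (fun c => vert e ∈ g c), W e c) ≤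
            ∑ e, w e * Real.exp (-((1 - Real.exp (-l)) * q / p) * ∑ c ∈ K \ E0, W e c) := by
  classical
  intro N
  induction N with
  | zero =>
    intro K n hN hcnt hn
    have hn0 : ∀ T, n T = 0 := by
      intro T
      have := Finset.single_le_sum (f := n) (fun _ _ => Nat.zero_le _) (Finset.mem_univ T)
      omega
    refine ⟨K, Finset.Subset.refl _, ?_, fun w hw => ?_⟩
    · have h1 : K.card = ∑ T, cnt K τ T := by
        unfold cnt
        exact Finset.card_eq_sum_card_fiberwise (fun _ _ => Finset.mem_univ _)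
      rw [h1, ← Finset.card_univ, ← smul_eq_mul, ← Finset.sum_const]
      refine Finset.sum_le_sum fun T _ => ?_
      rw [hcnt T, hn0 T]
      have := hr T
      nlinarith
    · obtain ⟨g, hg, hd⟩ := hn K τ hcnt
      refine ⟨g, hg, hd, Finset.sum_le_sum fun e _ => mul_le_mul_of_nonneg_left ?_ (hw e)⟩
      rw [Finset.sdiff_self, Finset.sum_empty, mul_zero, Real.exp_zero, Real.exp_le_one_iff]
      have := Finset.sum_nonneg fun c (_ : c ∈ K.filter (fun c => vert e ∈ g c)) => hW0 e c
      nlinarith
  | succ N ih =>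
    intro K n hN hcnt hn
    by_cases hex : ∃ T, Kc < n T
    · obtain ⟨T, hT⟩ := hex
      let n' : Finset V → ℕ := fun T' => if T' = T then n T' - 1 else n T'
      have hn'1 : n' T + 1 = n T := by
        simp only [n', if_true]; omega
      have hn'2 : ∀ T', T' ≠ T → n' T' = n T' := fun T' h => by simp only [n', h, if_false]
      have hn'P : PP G p q r β n' := by
        refine PP.mono hσ hq ?_ (hK n hn)
        intro T'
        by_cases h : T' = T
        · subst h
          change min (n T') Kc ≤ n' T'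
          omega
        · rw [hn'2 T' h]
          exact min_le_left _ _
      have hsumn : ∀ f : Finset V → ℤ, ∑ T', f T' * (n T' : ℤ) = ∑ T', f T' * (n' T' : ℤ) + f T := by
        intro f
        rw [← Finset.sum_erase_add _ _ (Finset.mem_univ T),
          ← Finset.sum_erase_add Finset.univ (fun T' => f T' * (n' T' : ℤ)) (Finset.mem_univ T)]
        have h1 : ∑ x ∈ Finset.univ.erase T, f x * (n x : ℤ) =
            ∑ x ∈ Finset.univ.erase T, f x * (n' x : ℤ) :=
          Finset.sum_congr rfl fun x hx => by rw [hn'2 x (Finset.ne_of_mem_erase hx)]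
        rw [h1]
        have h2 : (n T : ℤ) = n' T + 1 := by exact_mod_cast hn'1.symm
        rw [h2]
        ring
      have hN' : ∑ T', n' T' ≤ N := by
        have h1 := hsumn fun _ => 1
        simp only [one_mul] at h1
        have h2 : ((∑ T', n T' : ℕ) : ℤ) = ((∑ T', n' T' : ℕ) : ℤ) + 1 := by
          push_cast
          exact h1
        have h3 : (∑ T', n T' : ℕ) = (∑ T', n' T' : ℕ) + 1 := by exact_mod_cast h2
        omega
      have hTp : p ≤ cnt K τ T := by
        rw [hcnt T]
        have : 1 ≤ n T := by omega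
        nlinarith
      obtain ⟨D, hD, hDp⟩ := Finset.exists_subset_card_eq hTp
      have hDK : D ⊆ K := hD.trans (Finset.filter_subset _ _)
      have hDT : ∀ c ∈ D, τ c = T := fun c hc => (Finset.mem_filter.mp (hD hc)).2
      obtain ⟨pos, h1, h2⟩ := exists_pos D hDp
      obtain ⟨E0, hE0, hE0c, hE0g⟩ := ih (K \ D) n' hN' (by
        intro T'
        have h3 := cnt_sdiff hDK hDT T'
        rw [hcnt T', hDp] at h3
        by_cases hTT : T' = T
        · subst hTT
          simp only [if_true] at h3
          rw [← hn'1] at h3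
          have : p * (n' T' + 1) = p * n' T' + p := by ring
          omega
        · simp only [hTT, if_false, add_zero] at h3
          rw [hn'2 T' hTT]
          exact h3) hn'P
      refine ⟨E0, hE0.trans Finset.sdiff_subset, hE0c, fun w hw => ?_⟩
      set κ : ℝ := (1 - Real.exp (-l)) * q / p with hκ
      let f : E → ZMod p → ℝ := fun e s => ∑ c ∈ D.filter (fun c => vert e ∈ σ (pos c + s)), W e c
      obtain ⟨R, hR⟩ : ∃ R : E → ℝ, ∀ e, R e = ∑ c ∈ (K \ D) \ E0, W e c := ⟨_, fun _ => rfl⟩
      have hp : (0 : ℝ) < p := by exact_mod_cast Nat.pos_of_ne_zero (NeZero.ne p)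
      have havg : ∑ s : ZMod p, ∑ e, (w e * Real.exp (-l * f e s)) * Real.exp (-κ * R e) ≤
          ∑ s : ZMod p, ∑ e, w e * Real.exp (-κ * ∑ c ∈ K \ E0, W e c) := by
        rw [Finset.sum_comm]
        have h3 : ∑ s : ZMod p, ∑ e, w e * Real.exp (-κ * ∑ c ∈ K \ E0, W e c) =
            ∑ e, w e * (Real.exp (-κ * R e) * (p * Real.exp (-κ * ∑ c ∈ D, W e c))) := by
          rw [Finset.sum_const, Finset.card_univ, ZMod.card, nsmul_eq_mul, Finset.mul_sum]
          refine Finset.sum_congr rfl fun e _ => ?_
          have h4 : ∑ c ∈ K \ E0, W e c = R e + ∑ c ∈ D, W e c := by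
            have h5 : K \ E0 = ((K \ D) \ E0) ∪ D := by
              ext c
              simp only [Finset.mem_sdiff, Finset.mem_union]
              constructor
              · rintro ⟨h6, h7⟩
                by_cases h8 : c ∈ D
                · exact Or.inr h8
                · exact Or.inl ⟨⟨h6, h8⟩, h7⟩
              · rintro (⟨⟨h6, _⟩, h7⟩ | h6)
                · exact ⟨h6, h7⟩
                · exact ⟨hDK h6, fun h7 => (Finset.mem_sdiff.mp (hE0 h7)).2 h6⟩
            rw [h5, Finset.sum_union, hR]
            rw [Finset.disjoint_left]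
            intro c hc
            exact (Finset.mem_sdiff.mp (Finset.mem_sdiff.mp hc).1).2
          rw [h4, mul_add, Real.exp_add]
          ring
        rw [h3]
        refine Finset.sum_le_sum fun e _ => ?_
        have h4 : ∑ s : ZMod p, (w e * Real.exp (-l * f e s)) * Real.exp (-κ * R e) =
            w e * (Real.exp (-κ * R e) * ∑ s : ZMod p, Real.exp (-l * f e s)) := by
          rw [Finset.mul_sum, Finset.mul_sum]
          refine Finset.sum_congr rfl fun s _ => by ring
        rw [h4]
        refine mul_le_mul_of_nonneg_left (mul_le_mul_of_nonneg_left ?_ (Real.exp_pos _).le) (hw e)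
        exact block_avg hq hDp (vert e) (hW0 e) (hW1 e) hl
      obtain ⟨s, -, hs⟩ := Finset.exists_le_of_sum_le (Finset.univ_nonempty) havg
      obtain ⟨g', hg', hcov, hgw⟩ := hE0g (fun e => w e * Real.exp (-l * f e s))
        (fun e => mul_nonneg (hw e) (Real.exp_pos _).le)
      refine ⟨fun c => if c ∈ D then σ (pos c + s) else g' c, fun c => ?_, fun v => ?_, ?_⟩
      · by_cases hc : c ∈ D
        · simp only [hc, if_true]
          exact hσ _
        · simp only [hc, if_false]
          exact hg' _
      · have h4 := cov_add_block (g' := g') hq hDK hDT h1 h2 s v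
        have h5 := hcov v
        have h6 : ∑ T' ∈ Finset.univ.filter (fun T : Finset V => v ∈ T), (n T' : ℤ) =
            ∑ T' ∈ Finset.univ.filter (fun T : Finset V => v ∈ T), (n' T' : ℤ) +
              (if v ∈ T then 1 else 0) := by
          have h7 := hsumn fun T => if v ∈ T then 1 else 0
          simp only [ite_mul, one_mul, zero_mul, ← Finset.sum_filter] at h7
          exact h7
        rw [h6]
        have h7 : ((cov (K \ D) τ g' v : ℤ) + (if v ∈ T then (q : ℤ) else 0)) ≤
            (cov K τ (fun c => if c ∈ D then σ (pos c + s) else g' c) v : ℤ) := by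
          have : ((if v ∈ T then (q : ℤ) else 0) : ℤ) = ((if v ∈ T then q else 0 : ℕ) : ℤ) := by
            split_ifs <;> simp
          rw [this]
          exact_mod_cast h4
        split_ifs at h7 ⊢ with hv
        · linarith
        · linarith
      · refine le_trans (le_of_eq ?_) (hgw.trans (by simpa only [hR] using hs))
        refine Finset.sum_congr rfl fun e _ => ?_
        rw [mul_assoc, ← Real.exp_add]
        congr 2
        have h4 : K.filter (fun c => vert e ∈ (if c ∈ D then σ (pos c + s) else g' c)) =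
            ((K \ D).filter fun c => vert e ∈ g' c) ∪
              (D.filter fun c => vert e ∈ σ (pos c + s)) := by
          ext c
          simp only [Finset.mem_filter, Finset.mem_union, Finset.mem_sdiff]
          constructor
          · rintro ⟨h5, h6⟩
            by_cases h7 : c ∈ D
            · simp only [h7, if_true] at h6
              exact Or.inr ⟨h7, h6⟩
            · simp only [h7, if_false] at h6
              exact Or.inl ⟨⟨h5, h7⟩, h6⟩
          · rintro (⟨⟨h5, h7⟩, h6⟩ | ⟨h7, h6⟩)
            · exact ⟨h5, by simp only [h7, if_false]; exact h6⟩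
            · exact ⟨hDK h7, by simp only [h7, if_true]; exact h6⟩
        rw [h4, Finset.sum_union]
        · change _ = -l * f e s + _
          simp only [f]
          ring
        · rw [Finset.disjoint_left]
          intro c hc hc'
          rw [Finset.mem_filter, Finset.mem_sdiff] at hc
          exact hc.1.2 (Finset.mem_filter.mp hc').1
    · push Not at hex
      refine ⟨K, Finset.Subset.refl _, ?_, fun w hw => ?_⟩
      · have h1 : K.card = ∑ T, cnt K τ T := by
          unfold cnt
          exact Finset.card_eq_sum_card_fiberwise (fun _ _ => Finset.mem_univ _)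
        rw [h1, ← Finset.card_univ, ← smul_eq_mul, ← Finset.sum_const]
        refine Finset.sum_le_sum fun T _ => ?_
        rw [hcnt T]
        have h2 := hr T
        have h3 := hex T
        nlinarith
      · obtain ⟨g, hg, hd⟩ := hn K τ hcnt
        refine ⟨g, hg, hd, Finset.sum_le_sum fun e _ => mul_le_mul_of_nonneg_left ?_ (hw e)⟩
        rw [Finset.sdiff_self, Finset.sum_empty, mul_zero, Real.exp_zero, Real.exp_le_one_iff]
        have := Finset.sum_nonneg fun c (_ : c ∈ K.filter (fun c => vert e ∈ g c)) => hW0 e c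
        nlinarith

end Pool.Agent.H89.KW
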