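import Mathlib
import Pool.Agent.H89.KW.Shift

/-!
The colouring theorem: exact coverage together with derandomised shifts, constants depending only
on the graph.
-/

set_option autoImplicit false

namespace Pool.Agent.H89.KW

open Finset

variable {V : Type*} [Fintype V] [DecidableEq V]

theorem exists_K (G : SimpleGraph V) {p q : ℕ} [NeZero p] {σ : ZMod p → Finset V}
    (hσ : ∀ i, Ind G (σ i)) (hq : ∀ v, q ≤ (Finset.univ.filter fun i => v ∈ σ i).card) (M : ℕ) :
    ∃ Kc : ℕ, ∀ r : Finset V → ℕ, (∀ T, r T < p) → ∀ β : V → ℤ, (∀ v, -(M : ℤ) ≤ β v) →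
      (∀ v, β v ≤ M) → ∀ n, PP G p q r β n → PP G p q r β fun T => min (n T) Kc := by
  classical
  have h1 : ∀ x : (Finset V → Fin p) × (V → Fin (2 * M + 1)), ∃ K : ℕ, ∀ n,
      PP G p q (fun T => x.1 T) (fun v => ((x.2 v : ℕ) : ℤ) - M) n →
      PP G p q (fun T => x.1 T) (fun v => ((x.2 v : ℕ) : ℤ) - M) fun T => min (n T) K := fun x =>
    exists_trunc _ fun n n' hnn hn => PP.mono hσ hq hnn hn
  choose K hK using h1
  refine ⟨Finset.univ.sup K, fun r hr β hβ1 hβ2 n hn => ?_⟩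
  let x : (Finset V → Fin p) × (V → Fin (2 * M + 1)) :=
    (fun T => ⟨r T, hr T⟩, fun v => ⟨(β v + M).toNat, by
      have h2 := hβ1 v
      have h3 := hβ2 v
      omega⟩)
  have hx1 : (fun T => ((x.1 T : Fin p) : ℕ)) = r := rfl
  have hx2 : (fun v => (((x.2 v : Fin (2 * M + 1)) : ℕ) : ℤ) - M) = β := by
    funext v
    have h2 := hβ1 v
    simp only [x]
    omega
  have h4 := hK x n
  rw [hx1, hx2] at h4
  refine PP.mono hσ hq (fun T => ?_) (h4 hn)
  have h5 : K x ≤ Finset.univ.sup K := Finset.le_sup (Finset.mem_univ x)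
  change min (n T) (K x) ≤ min (n T) (Finset.univ.sup K)
  omega

theorem exists_coloring (G : SimpleGraph V) [Nonempty V] :
    ∃ (p q R : ℕ), 0 < p ∧ 0 < q ∧ q ≤ p ∧
      (∀ (a b : ℕ) (g : Fin a → Finset V), (∀ i, Ind G (g i)) →
        (∀ v, b ≤ (Finset.univ.filter fun i => v ∈ g i).card) → p * b ≤ q * a) ∧
      ∀ (a b : ℕ) (K : Finset ℕ) (τ : ℕ → Finset V), p * b ≤ q * a →
        Feas G K τ (fun _ => (b : ℤ)) →
        (∀ v, (K.filter fun c => v ∈ τ c).card = a) →
        ∀ (l : ℝ), 0 ≤ l → ∀ {E : Type} [Fintype E] (vert : E → V) (W : E → ℕ → ℝ),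
        (∀ e c, 0 ≤ W e c) → (∀ e c, W e c ≤ 1 / p) →
        ∃ E0 ⊆ K, E0.card ≤ R ∧ ∀ w : E → ℝ, (∀ e, 0 ≤ w e) → ∃ g : ℕ → Finset V,
          (∀ c, Ind G (g c)) ∧ (∀ v, b ≤ cov K τ g v) ∧
          ∑ e, w e * Real.exp (-l * ∑ c ∈ K.filter (fun c => vert e ∈ g c), W e c) ≤
            ∑ e, w e * Real.exp (-((1 - Real.exp (-l)) * q / p) * ∑ c ∈ K \ E0, W e c) := by
  classical
  obtain ⟨p, q, σ0, hp, hq0, hσ0, hσq, hopt⟩ := exists_frac G
  have hpne : NeZero p := ⟨hp.ne'⟩
  have hce : Fintype.card (ZMod p) = Fintype.card (Fin p) := by rw [ZMod.card, Fintype.card_fin]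
  let ee : ZMod p ≃ Fin p := Fintype.equivOfCardEq hce
  let σ : ZMod p → Finset V := fun i => σ0 (ee i)
  have hσ : ∀ i, Ind G (σ i) := fun i => hσ0 _
  have hq : ∀ v, q ≤ (Finset.univ.filter fun i => v ∈ σ i).card := by
    intro v
    refine (hσq v).trans (le_of_eq ?_)
    symm
    refine Finset.card_bij (fun i _ => ee i) ?_ ?_ ?_
    · intro i hi
      simpa [σ] using hi
    · intro i _ j _ h
      exact ee.injective h
    · intro i hi
      exact ⟨ee.symm i, by simpa [σ] using hi, by simp⟩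
  set S := Fintype.card (Finset V) with hS
  obtain ⟨Kc, hKc⟩ := exists_K G hσ hq (q * S)
  have hqp : q ≤ p := by
    obtain ⟨v0⟩ := ‹Nonempty V›
    exact (hσq v0).trans (by simpa using Finset.card_le_univ (Finset.univ.filter fun i => v0 ∈ σ0 i))
  refine ⟨p, q, S * (p * (Kc + 1)), hp, hq0, hqp, hopt, ?_⟩
  intro a b K τ hratio hfeas hcount l hl E _ vert W hW0 hW1
  -- data of the instance
  obtain ⟨n, hn⟩ : ∃ n : Finset V → ℕ, ∀ T, n T = cnt K τ T / p := ⟨_, fun _ => rfl⟩
  obtain ⟨r, hr⟩ : ∃ r : Finset V → ℕ, ∀ T, r T = cnt K τ T % p := ⟨_, fun _ => rfl⟩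
  have hcnt : ∀ T, cnt K τ T = p * n T + r T := fun T => by
    rw [hn, hr]; exact (Nat.div_add_mod _ _).symm
  have hrp : ∀ T, r T < p := fun T => by rw [hr]; exact Nat.mod_lt _ hp
  have hsum : ∀ v, ∑ T ∈ Finset.univ.filter (fun T : Finset V => v ∈ T), cnt K τ T = a := by
    intro v
    rw [← hcount v]
    unfold cnt
    rw [Finset.card_eq_sum_card_fiberwise (f := τ) (s := K.filter fun c => v ∈ τ c)
      (t := Finset.univ.filter fun T : Finset V => v ∈ T)]
    · refine Finset.sum_congr rfl fun T hT => ?_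
      rw [Finset.mem_filter] at hT
      congr 1
      ext c
      simp only [Finset.mem_filter]
      constructor
      · rintro ⟨h1, h2⟩
        exact ⟨⟨h1, by rw [h2]; exact hT.2⟩, h2⟩
      · rintro ⟨⟨h1, _⟩, h2⟩
        exact ⟨h1, h2⟩
    · intro c hc
      have hc' := (Finset.mem_filter.mp hc).2
      simpa using hc'
  obtain ⟨ns, hns⟩ : ∃ ns : V → ℕ, ∀ v,
      ns v = ∑ T ∈ Finset.univ.filter (fun T : Finset V => v ∈ T), n T := ⟨_, fun _ => rfl⟩
  obtain ⟨rs, hrs⟩ : ∃ rs : V → ℕ, ∀ v,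
      rs v = ∑ T ∈ Finset.univ.filter (fun T : Finset V => v ∈ T), r T := ⟨_, fun _ => rfl⟩
  have hnr : ∀ v, p * ns v + rs v = a := by
    intro v
    rw [← hsum v, hns, hrs, Finset.mul_sum, ← Finset.sum_add_distrib]
    exact Finset.sum_congr rfl fun T _ => (hcnt T).symm
  have hrsS : ∀ v, rs v ≤ p * S := by
    intro v
    rw [hrs]
    calc ∑ T ∈ Finset.univ.filter (fun T : Finset V => v ∈ T), r T
        ≤ ∑ T : Finset V, r T := Finset.sum_le_sum_of_subset (Finset.filter_subset _ _)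
      _ ≤ ∑ _T : Finset V, p := Finset.sum_le_sum fun T _ => (hrp T).le
      _ = p * S := by rw [Finset.sum_const, Finset.card_univ, smul_eq_mul, mul_comm]
  have hcast : ∀ v, ((∑ T ∈ Finset.univ.filter (fun T : Finset V => v ∈ T), (n T : ℤ))) = ns v := by
    intro v
    rw [hns]
    push_cast
    rfl
  have hPP : PP G p q r (fun v => (b : ℤ) - q * ns v) n := by
    refine PP.of_feas hcnt ?_
    have : (fun v => (b : ℤ) - q * ns v +
        q * ∑ T ∈ Finset.univ.filter (fun T : Finset V => v ∈ T), (n T : ℤ)) =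
        fun _ => (b : ℤ) := by
      funext v
      rw [hcast v]
      ring
    rw [this]
    exact hfeas
  by_cases hcase : q * a ≤ p * b + q * (p * S)
  · -- the main case
    have hb1 : ∀ v, -((q * S : ℕ) : ℤ) ≤ (b : ℤ) - q * ns v := by
      intro v
      have h1 := hnr v
      have h2 : p * (q * ns v) ≤ p * (b + q * S) := by
        calc p * (q * ns v) = q * (p * ns v) := by ring
          _ ≤ q * a := Nat.mul_le_mul_left _ (by omega)
          _ ≤ p * b + q * (p * S) := hcase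
          _ = p * (b + q * S) := by ring
      have h3 := Nat.le_of_mul_le_mul_left h2 hp
      have h4 : ((q * ns v : ℕ) : ℤ) ≤ ((b + q * S : ℕ) : ℤ) := by exact_mod_cast h3
      push_cast at h4 ⊢
      linarith
    have hb2 : ∀ v, (b : ℤ) - q * ns v ≤ ((q * S : ℕ) : ℤ) := by
      intro v
      have h1 := hnr v
      have h2 : p * b ≤ p * (q * ns v + q * S) := by
        calc p * b ≤ q * a := hratio
          _ = p * (q * ns v) + q * rs v := by rw [← h1]; ring
          _ ≤ p * (q * ns v) + q * (p * S) := by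
              have := Nat.mul_le_mul_left q (hrsS v)
              omega
          _ = p * (q * ns v + q * S) := by ring
      have h3 := Nat.le_of_mul_le_mul_left h2 hp
      have h4 : ((b : ℕ) : ℤ) ≤ ((q * ns v + q * S : ℕ) : ℤ) := by exact_mod_cast h3
      push_cast at h4 ⊢
      linarith
    obtain ⟨E0, hE0, hE0c, hE⟩ := main_ind G hσ hq (fun T => (hrp T).le)
      (hKc r hrp _ hb1 hb2) hl vert W hW0 hW1 τ (∑ T, n T) K n le_rfl hcnt hPP
    refine ⟨E0, hE0, hE0c, fun w hw => ?_⟩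
    obtain ⟨g, hg, hcov, hgw⟩ := hE w hw
    refine ⟨g, hg, fun v => ?_, hgw⟩
    have h1 := hcov v
    rw [hcast v] at h1
    have h2 : (b : ℤ) ≤ cov K τ g v := by linarith
    exact_mod_cast h2
  · -- plenty of room: demand zero for the remainder
    push Not at hcase
    have hP0 : PP G p q r (fun _ => 0) n := by
      refine PP.mono hσ hq (n := fun _ => 0) (fun T => Nat.zero_le _) ?_
      intro K' τ' _
      refine ⟨fun _ => ∅, fun _ u hu => by simp at hu, fun v => ?_⟩
      simp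
    have hz1 : ∀ _v : V, -((q * S : ℕ) : ℤ) ≤ (0 : ℤ) := fun _ => by
      have : (0 : ℤ) ≤ ((q * S : ℕ) : ℤ) := Int.natCast_nonneg _
      linarith
    have hz2 : ∀ _v : V, (0 : ℤ) ≤ ((q * S : ℕ) : ℤ) := fun _ => Int.natCast_nonneg _
    obtain ⟨E0, hE0, hE0c, hE⟩ := main_ind G hσ hq (fun T => (hrp T).le)
      (hKc r hrp _ hz1 hz2) hl vert W hW0 hW1 τ (∑ T, n T) K n le_rfl hcnt hP0
    refine ⟨E0, hE0, hE0c, fun w hw => ?_⟩
    obtain ⟨g, hg, hcov, hgw⟩ := hE w hw
    refine ⟨g, hg, fun v => ?_, hgw⟩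
    have h1 := hcov v
    rw [hcast v] at h1
    have h2 : p * b ≤ p * (q * ns v) := by
      have h3 := hnr v
      have h4 := hrsS v
      have h5 : q * a = p * (q * ns v) + q * rs v := by rw [← h3]; ring
      have h6 := Nat.mul_le_mul_left q h4
      omega
    have h3 := Nat.le_of_mul_le_mul_left h2 hp
    have h4 : ((b : ℕ) : ℤ) ≤ ((q * ns v : ℕ) : ℤ) := by exact_mod_cast h3
    push_cast at h4
    have h5 : (b : ℤ) ≤ cov K τ g v := by linarith
    exact_mod_cast h5

end Pool.Agent.H89.KW
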