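import Mathlib

/-!
Hall's condition for the lists of the copies of one vertex.
-/

set_option autoImplicit false

namespace Pool.Agent.H89.KW

open Finset

/-- number of lists containing `x` -/
def deg {b : ℕ} (A : Fin b → Finset ℕ) (x : ℕ) : ℕ := (Finset.univ.filter fun j => x ∈ A j).card

/-- the colours that are in more than `k` lists -/
def pop {b : ℕ} (A : Fin b → Finset ℕ) (k : ℕ) : Finset ℕ :=
  (Finset.univ.biUnion A).filter fun x => k < deg A x

theorem mem_pop {b : ℕ} {A : Fin b → Finset ℕ} {k x : ℕ} : x ∈ pop A k ↔ k < deg A x := by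
  unfold pop
  rw [Finset.mem_filter]
  refine ⟨fun h => h.2, fun h => ⟨?_, h⟩⟩
  have h1 : 0 < deg A x := by omega
  obtain ⟨j, hj⟩ := Finset.card_pos.mp h1
  rw [Finset.mem_filter] at hj
  exact Finset.mem_biUnion.mpr ⟨j, Finset.mem_univ _, hj.2⟩

theorem hall_lists {b a : ℕ} (A : Fin b → Finset ℕ) (B : Finset ℕ)
    (hB : B.card = a) (hBU : ∀ x ∈ B, 1 ≤ deg A x)
    (hBpop : ∀ x ∈ B, ∀ y, y ∉ B → deg A y ≤ deg A x)
    (X : Finset ℕ) (hX : b ≤ (B ∩ X).card) (k0 : ℕ)
    (h1 : ∀ j, b ≤ (A j ∩ X).card + k0)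
    (h2 : ∀ k γ, 1 ≤ k → k ≤ k0 → (pop A k).card + γ = a → k + 1 ≤ γ →
      ∃ A' : Fin b → Finset ℕ, (∀ j, A' j ⊆ A j) ∧ (∀ j, (A' j).card = γ) ∧
        (∀ j, ∀ x ∈ A' j, deg A x ≤ k) ∧ 2 * k * γ ≤ ∑ j, (A' j ∩ X).card) :
    ∃ f : Fin b → ℕ, Function.Injective f ∧ ∀ j, f j ∈ A j ∩ X := by
  classical
  rw [← Finset.all_card_le_biUnion_card_iff_exists_injective (fun j => A j ∩ X)]
  intro J
  have hU : (J.biUnion fun j => A j ∩ X) = J.biUnion A ∩ X := by
    ext x
    simp only [Finset.mem_biUnion, Finset.mem_inter]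
    constructor
    · rintro ⟨j, hj, h3, h4⟩; exact ⟨⟨j, hj, h3⟩, h4⟩
    · rintro ⟨⟨j, hj, h3⟩, h4⟩; exact ⟨j, hj, h3, h4⟩
  rw [hU]
  have hJb : J.card ≤ b := by
    simpa using Finset.card_le_univ J
  by_cases hJ0 : J = ∅
  · subst hJ0; simp
  obtain ⟨j0, hj0⟩ := Finset.nonempty_iff_ne_empty.mpr hJ0
  by_cases hk : J.card + k0 ≤ b
  · have h3 := h1 j0
    have h4 : (A j0 ∩ X).card ≤ (J.biUnion A ∩ X).card :=
      Finset.card_le_card (Finset.inter_subset_inter_right (Finset.subset_biUnion_of_mem A hj0))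
    omega
  push Not at hk
  obtain ⟨k, hkb⟩ : ∃ k, J.card + k = b := ⟨b - J.card, by omega⟩
  have hkc : (Finset.univ \ J).card = k := by
    rw [← Finset.compl_eq_univ_sdiff, Finset.card_compl, Fintype.card_fin]
    omega
  have hF1 : ∀ x, x ∉ J.biUnion A → deg A x ≤ k := by
    intro x hx
    rw [← hkc]
    refine Finset.card_le_card fun j hj => ?_
    rw [Finset.mem_filter] at hj
    rw [Finset.mem_sdiff]
    exact ⟨Finset.mem_univ _, fun hjJ => hx (Finset.mem_biUnion.mpr ⟨j, hjJ, hj.2⟩)⟩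
  by_cases hβ : (B \ J.biUnion A).card ≤ k
  · have h3 : B ∩ X ⊆ (J.biUnion A ∩ X) ∪ (B \ J.biUnion A) := by
      intro x hx
      rw [Finset.mem_inter] at hx
      rw [Finset.mem_union, Finset.mem_inter, Finset.mem_sdiff]
      by_cases h : x ∈ J.biUnion A
      · exact Or.inl ⟨h, hx.2⟩
      · exact Or.inr ⟨hx.1, h⟩
    have h4 := (Finset.card_le_card h3).trans (Finset.card_union_le _ _)
    omega
  push Not at hβ
  obtain ⟨x0, hx0⟩ := Finset.card_pos.mp (lt_of_le_of_lt (Nat.zero_le _) hβ)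
  rw [Finset.mem_sdiff] at hx0
  have hx0k := hF1 x0 hx0.2
  have hk1 : 1 ≤ k := (hBU x0 hx0.1).trans hx0k
  have hpopB : pop A k ⊆ B ∩ J.biUnion A := by
    intro x hx
    rw [mem_pop] at hx
    rw [Finset.mem_inter]
    constructor
    · by_contra h
      have := hBpop x0 hx0.1 x h
      omega
    · by_contra h
      have := hF1 x h
      omega
  have h3 : (pop A k).card + (B \ J.biUnion A).card ≤ a := by
    rw [← hB, ← Finset.card_inter_add_card_sdiff B (J.biUnion A)]
    exact Nat.add_le_add_right (Finset.card_le_card hpopB) _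
  obtain ⟨γ, hγ⟩ : ∃ γ, (pop A k).card + γ = a := ⟨a - (pop A k).card, by omega⟩
  obtain ⟨A', hA'1, hA'2, hA'3, hA'4⟩ := h2 k γ hk1 (by omega) hγ (by omega)
  -- popular part
  have h4 : b ≤ (pop A k ∩ X).card + γ := by
    have h5 : B ∩ X ⊆ (pop A k ∩ X) ∪ (B \ pop A k) := by
      intro x hx
      rw [Finset.mem_inter] at hx
      rw [Finset.mem_union, Finset.mem_inter, Finset.mem_sdiff]
      by_cases h : x ∈ pop A k
      · exact Or.inl ⟨h, hx.2⟩
      · exact Or.inr ⟨hx.1, h⟩
    have h6 := (Finset.card_le_card h5).trans (Finset.card_union_le _ _)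
    have h7 : (B \ pop A k).card = γ := by
      rw [Finset.card_sdiff_of_subset (hpopB.trans Finset.inter_subset_left)]
      omega
    omega
  -- unpopular part
  have h5 : γ ≤ (J.biUnion A' ∩ X).card := by
    have h6 : ∑ j ∈ J, (A' j ∩ X).card ≤ k * (J.biUnion A' ∩ X).card := by
      have h7 : ∑ j ∈ J, (A' j ∩ X).card =
          ∑ x ∈ J.biUnion A' ∩ X, (J.filter fun j => x ∈ A' j).card := by
        have h8 : ∀ j ∈ J, (A' j ∩ X).card =
            ∑ x ∈ J.biUnion A' ∩ X, if x ∈ A' j then 1 else 0 := by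
          intro j hj
          rw [← Finset.card_filter]
          congr 1
          ext x
          simp only [Finset.mem_inter, Finset.mem_filter, Finset.mem_biUnion]
          constructor
          · rintro ⟨h9, h10⟩; exact ⟨⟨⟨j, hj, h9⟩, h10⟩, h9⟩
          · rintro ⟨⟨_, h10⟩, h9⟩; exact ⟨h9, h10⟩
        rw [Finset.sum_congr rfl h8, Finset.sum_comm]
        refine Finset.sum_congr rfl fun x _ => ?_
        rw [Finset.card_filter]
      rw [h7, mul_comm, ← smul_eq_mul, ← Finset.sum_const]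
      refine Finset.sum_le_sum fun x hx => ?_
      rw [Finset.mem_inter, Finset.mem_biUnion] at hx
      obtain ⟨⟨j, _, hxj⟩, _⟩ := hx
      refine le_trans (Finset.card_le_card ?_) (hA'3 j x hxj)
      intro i hi
      rw [Finset.mem_filter] at hi ⊢
      exact ⟨Finset.mem_univ _, hA'1 i hi.2⟩
    have h7 : ∑ j, (A' j ∩ X).card ≤ ∑ j ∈ J, (A' j ∩ X).card + k * γ := by
      rw [← Finset.sum_sdiff (Finset.subset_univ J), add_comm]
      refine Nat.add_le_add_left ?_ _
      rw [← hkc, ← smul_eq_mul, ← Finset.sum_const]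
      refine Finset.sum_le_sum fun j _ => ?_
      rw [← hA'2 j]
      exact Finset.card_le_card Finset.inter_subset_left
    have h8 : k * γ ≤ k * (J.biUnion A' ∩ X).card := by
      have : 2 * k * γ = k * γ + k * γ := by ring
      omega
    exact Nat.le_of_mul_le_mul_left h8 hk1
  have h6 : (pop A k ∩ X).card + (J.biUnion A' ∩ X).card ≤ (J.biUnion A ∩ X).card := by
    rw [← Finset.card_union_of_disjoint]
    · refine Finset.card_le_card ?_
      intro x hx
      rw [Finset.mem_union, Finset.mem_inter, Finset.mem_inter] at hx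
      rw [Finset.mem_inter]
      rcases hx with ⟨h7, h8⟩ | ⟨h7, h8⟩
      · exact ⟨(Finset.mem_inter.mp (hpopB h7)).2, h8⟩
      · obtain ⟨j, hj, h9⟩ := Finset.mem_biUnion.mp h7
        exact ⟨Finset.mem_biUnion.mpr ⟨j, hj, hA'1 j h9⟩, h8⟩
    · rw [Finset.disjoint_left]
      intro x hx hx'
      rw [Finset.mem_inter, mem_pop] at hx
      rw [Finset.mem_inter, Finset.mem_biUnion] at hx'
      obtain ⟨⟨j, _, hxj⟩, _⟩ := hx'
      have := hA'3 j x hxj
      omega
  omega

/-- a set of `a` most popular colours -/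
theorem exists_popular {b a : ℕ} (A : Fin b → Finset ℕ) (hb : 0 < b) (hA : ∀ j, (A j).card = a) :
    ∃ B : Finset ℕ, B.card = a ∧ (∀ x ∈ B, 1 ≤ deg A x) ∧
      (∀ x ∈ B, ∀ y, y ∉ B → deg A y ≤ deg A x) := by
  classical
  have key : ∀ m, m ≤ (Finset.univ.biUnion A).card → ∃ B ⊆ Finset.univ.biUnion A, B.card = m ∧
      (∀ x ∈ B, ∀ y, y ∉ B → deg A y ≤ deg A x) := by
    intro m
    induction m with
    | zero =>
      intro _
      exact ⟨∅, Finset.empty_subset _, rfl, by simp⟩
    | succ m ih =>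
      intro hm
      obtain ⟨B, hBU, hBm, hB⟩ := ih (by omega)
      have hne : (Finset.univ.biUnion A \ B).Nonempty := by
        rw [← Finset.card_pos, Finset.card_sdiff_of_subset hBU]
        omega
      obtain ⟨x, hx, hmax⟩ := Finset.exists_max_image _ (deg A) hne
      rw [Finset.mem_sdiff] at hx
      refine ⟨insert x B, ?_, ?_, ?_⟩
      · exact Finset.insert_subset hx.1 hBU
      · rw [Finset.card_insert_of_notMem hx.2, hBm]
      · intro z hz y hy
        rw [Finset.mem_insert, not_or] at hy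
        rw [Finset.mem_insert] at hz
        rcases hz with rfl | hz
        · by_cases hyU : y ∈ Finset.univ.biUnion A
          · exact hmax y (Finset.mem_sdiff.mpr ⟨hyU, hy.2⟩)
          · have : deg A y = 0 := by
              unfold deg
              rw [Finset.card_eq_zero, Finset.filter_eq_empty_iff]
              intro j _ hj
              exact hyU (Finset.mem_biUnion.mpr ⟨j, Finset.mem_univ _, hj⟩)
            omega
        · exact hB z hz y hy.2
  have hle : a ≤ (Finset.univ.biUnion A).card := by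
    rw [← hA ⟨0, hb⟩]
    exact Finset.card_le_card (Finset.subset_biUnion_of_mem A (Finset.mem_univ _))
  obtain ⟨B, hBU, hBa, hB⟩ := key a hle
  refine ⟨B, hBa, fun x hx => ?_, hB⟩
  obtain ⟨j, _, hj⟩ := Finset.mem_biUnion.mp (hBU hx)
  exact Finset.card_pos.mpr ⟨j, Finset.mem_filter.mpr ⟨Finset.mem_univ _, hj⟩⟩

end Pool.Agent.H89.KW
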