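import Mathlib
import Pool.Agent.H89.KW.Color
import Pool.Agent.H89.KW.Hall

/-!
The equivalence for all large `b`.
-/

set_option autoImplicit false

namespace Pool.Agent.H89.KW

open Finset

theorem exp_neg_le {l : ℝ} (hl : 0 ≤ l) : Real.exp (-l) ≤ 1 - l + l ^ 2 / 2 := by
  have h1 := Real.quadratic_le_exp_of_nonneg hl
  have h2 : 0 < Real.exp l := Real.exp_pos l
  rw [Real.exp_neg, inv_le_comm₀ h2 (by nlinarith [sq_nonneg (l - 1)])]
  refine le_trans ?_ h1
  rw [inv_le_iff_one_le_mul₀ (by nlinarith [sq_nonneg (l - 1)])]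
  nlinarith [sq_nonneg (l ^ 2)]

theorem numeric (n : ℕ) (θ C p : ℝ) (hθ : 0 < θ) (hp : 0 < p) :
    ∃ b0 : ℕ, ∀ b : ℕ, b0 ≤ b → 2 * n * b * Real.exp ((C - θ ^ 2 * b / 2) / p) < 1 := by
  set c : ℝ := θ ^ 2 / 2 / p with hc
  have hc0 : 0 < c := by positivity
  have h1 := (Real.tendsto_pow_mul_exp_neg_atTop_nhds_zero 1)
  have h2 : Filter.Tendsto (fun b : ℕ => c * (b : ℝ)) Filter.atTop Filter.atTop :=
    Filter.Tendsto.const_mul_atTop hc0 tendsto_natCast_atTop_atTop
  have h3 := (h1.comp h2).const_mul (2 * n * Real.exp (C / p) / c)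
  rw [mul_zero] at h3
  have h4 := (h3.eventually_lt_const (zero_lt_one' ℝ))
  rw [Filter.eventually_atTop] at h4
  obtain ⟨b0, hb0⟩ := h4
  refine ⟨b0, fun b hb => ?_⟩
  have h5 := hb0 b hb
  refine lt_of_le_of_lt (le_of_eq ?_) h5
  simp only [Function.comp, pow_one]
  have h6 : (C - θ ^ 2 * b / 2) / p = C / p + -(c * b) := by
    rw [hc]; field_simp; ring
  rw [h6, Real.exp_add]
  field_simp

variable {V : Type} [Fintype V]

theorem main_large (G : SimpleGraph V) : ∃ b₀ : ℕ, ∀ b, b₀ ≤ b → ∀ a : ℕ,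
    (∀ L : V → Finset ℕ, (∀ v, (L v).card = a) →
      ∃ C : V → Finset ℕ, (∀ v, C v ⊆ L v ∧ (C v).card = b) ∧
        ∀ u v, G.Adj u v → Disjoint (C u) (C v)) →
    (∀ L : V × Fin b → Finset ℕ, (∀ x, (L x).card = a) →
      ∃ f : V × Fin b → ℕ, (∀ x, f x ∈ L x) ∧
        ∀ x y, (G.Adj x.1 y.1 ∨ (x.1 = y.1 ∧ x.2 ≠ y.2)) → f x ≠ f y) := by
  classical
  by_cases hV : Nonempty V
  swap
  · rw [not_nonempty_iff] at hV
    refine ⟨0, fun b _ a _ L _ => ⟨fun x => 0, fun x => (hV.false x.1).elim, fun x => (hV.false x.1).elim⟩⟩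
  obtain ⟨p, q, R, hp, hq, hqp, hopt, hcol⟩ := exists_coloring G
  have hpR : (0 : ℝ) < p := by exact_mod_cast hp
  have hqR : (0 : ℝ) < q := by exact_mod_cast hq
  obtain ⟨θ, hθ⟩ : ∃ θ : ℝ, θ = q / (8 * p) := ⟨_, rfl⟩
  have hθ0 : 0 < θ := by rw [hθ]; positivity
  have hθ1 : θ ≤ 1 := by
    rw [hθ, div_le_one (by positivity)]
    have : (q : ℝ) ≤ p := by exact_mod_cast hqp
    linarith
  have hqp8 : (q : ℝ) / p = 8 * θ := by rw [hθ]; field_simp
  have hexp := exp_neg_le hθ0.le
  obtain ⟨κ, hκ⟩ : ∃ κ : ℝ, κ = (1 - Real.exp (-θ)) * q / p := ⟨_, rfl⟩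
  have hκ' : κ = (1 - Real.exp (-θ)) * (8 * θ) := by rw [hκ, ← hqp8]; ring
  have hκ1 : 4 * θ ^ 2 ≤ κ := by
    rw [hκ']
    have : θ / 2 ≤ 1 - Real.exp (-θ) := by nlinarith
    nlinarith
  have hκ0 : 0 ≤ κ := le_trans (by positivity) hκ1
  obtain ⟨b0, hb0⟩ := numeric (Fintype.card V) θ (θ + κ * R) p hθ0 hpR
  refine ⟨b0 + 1, fun b hb a H L hL => ?_⟩
  have hbpos : 0 < b := by omega
  have hbR : (0 : ℝ) < b := by exact_mod_cast hbpos
  have hnum := hb0 b (by omega)
  -- popular colours
  obtain ⟨A, hAdef⟩ : ∃ A : V → Fin b → Finset ℕ, ∀ v j, A v j = L (v, j) := ⟨_, fun _ _ => rfl⟩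
  have hA : ∀ v j, (A v j).card = a := fun v j => by rw [hAdef]; exact hL _
  choose B hB1 hB2 hB3 using fun v => exists_popular (A v) hbpos (hA v)
  obtain ⟨C, hC1, hC2⟩ := H B hB1
  -- ratio
  have hratio : p * b ≤ q * a := by
    obtain ⟨C', hC'1, hC'2⟩ := H (fun _ => Finset.range a) (fun _ => Finset.card_range a)
    refine hopt a b (fun i => Finset.univ.filter fun v => (i : ℕ) ∈ C' v) (fun i => ?_) (fun v => ?_)
    · intro u hu v hv huv
      rw [Finset.mem_filter] at hu hv
      exact Finset.disjoint_left.mp (hC'2 u v huv) hu.2 hv.2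
    · rw [← (hC'1 v).2]
      have hlt : ∀ c ∈ C' v, c < a := fun c hc => Finset.mem_range.mp ((hC'1 v).1 hc)
      refine le_of_eq (Finset.card_bij (fun c hc => (⟨c, hlt c hc⟩ : Fin a)) ?_ ?_ ?_)
      · intro c hc
        simpa using hc
      · intro c _ c' _ h
        exact congrArg Fin.val h
      · intro i hi
        exact ⟨i, by simpa using hi, rfl⟩
  -- the instance
  obtain ⟨K, hKdef⟩ : ∃ K : Finset ℕ, K = Finset.univ.biUnion L := ⟨_, rfl⟩
  have hAK : ∀ v j, A v j ⊆ K := by
    intro v j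
    rw [hAdef, hKdef]
    exact Finset.subset_biUnion_of_mem L (Finset.mem_univ (v, j))
  have hBK : ∀ v, B v ⊆ K := by
    intro v c hc
    obtain ⟨j, hj⟩ := Finset.card_pos.mp (hB2 v c hc)
    exact hAK v j (Finset.mem_filter.mp hj).2
  obtain ⟨τ, hτ⟩ : ∃ τ : ℕ → Finset V, ∀ c, τ c = Finset.univ.filter fun v => c ∈ B v :=
    ⟨_, fun _ => rfl⟩
  have hτB : ∀ v c, v ∈ τ c ↔ c ∈ B v := fun v c => by rw [hτ]; simp
  have hcount : ∀ v, (K.filter fun c => v ∈ τ c).card = a := by
    intro v
    rw [← hB1 v]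
    congr 1
    ext c
    rw [Finset.mem_filter, hτB]
    exact ⟨fun h => h.2, fun h => ⟨hBK v h, h⟩⟩
  have hfeas : Feas G K τ (fun _ => (b : ℤ)) := by
    refine ⟨fun c => Finset.univ.filter fun v => c ∈ C v, fun c u hu v hv huv => ?_, fun v => ?_⟩
    · rw [Finset.mem_filter] at hu hv
      exact Finset.disjoint_left.mp (hC2 u v huv) hu.2 hv.2
    · have h1 : (b : ℕ) ≤ cov K τ (fun c => Finset.univ.filter fun v => c ∈ C v) v := by
        unfold cov
        rw [← (hC1 v).2]
        refine Finset.card_le_card fun c hc => ?_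
        rw [Finset.mem_filter, hτB]
        exact ⟨hBK v ((hC1 v).1 hc), (hC1 v).1 hc, by simpa using hc⟩
      change (b : ℤ) ≤ _
      exact_mod_cast h1
  -- thresholds
  obtain ⟨k0, hk0⟩ : ∃ k0 : ℕ, k0 = q * b / (8 * p) := ⟨_, rfl⟩
  have hk0a : (k0 : ℝ) ≤ θ * b := by
    have h1 : k0 * (8 * p) ≤ q * b := by rw [hk0]; exact Nat.div_mul_le_self _ _
    have h2 : (k0 : ℝ) * (8 * p) ≤ q * b := by exact_mod_cast h1
    rw [hθ, div_mul_eq_mul_div, le_div_iff₀ (by positivity)]
    exact h2
  have hk0b : θ * b ≤ k0 + 1 := by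
    have h1 : q * b < (k0 + 1) * (8 * p) := by
      rw [hk0]
      exact (Nat.div_lt_iff_lt_mul (by positivity)).mp (Nat.lt_succ_self _)
    have h2 : (q : ℝ) * b < (k0 + 1) * (8 * p) := by exact_mod_cast h1
    rw [hθ, div_mul_eq_mul_div, div_le_iff₀ (by positivity)]
    exact h2.le
  -- unpopular parts
  have hA' : ∀ (v : V) (k : ℕ), ∃ A' : Fin b → Finset ℕ, (∀ j, A' j ⊆ A v j \ pop (A v) k) ∧
      ∀ j, (A' j).card = a - (pop (A v) k).card := by
    intro v k
    have h1 : ∀ j, ∃ s ⊆ A v j \ pop (A v) k, s.card = a - (pop (A v) k).card := by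
      intro j
      refine Finset.exists_subset_card_eq ?_
      rw [← hA v j]
      exact Finset.le_card_sdiff _ _
    choose s hs1 hs2 using h1
    exact ⟨s, hs1, hs2⟩
  choose A' hA'1 hA'2 using hA'
  have hdegA' : ∀ v k c, (Finset.univ.filter fun j => c ∈ A' v k j).card ≤ k := by
    intro v k c
    by_cases hex : ∃ j, c ∈ A' v k j
    · obtain ⟨j, hj⟩ := hex
      have h1 := Finset.mem_sdiff.mp (hA'1 v k j hj)
      have h2 : deg (A v) c ≤ k := by
        have := h1.2
        rw [mem_pop] at this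
        omega
      refine le_trans (Finset.card_le_card ?_) h2
      intro i hi
      rw [Finset.mem_filter] at hi ⊢
      exact ⟨Finset.mem_univ _, (Finset.mem_sdiff.mp (hA'1 v k i hi.2)).1⟩
    · push Not at hex
      have : (Finset.univ.filter fun j => c ∈ A' v k j) = ∅ := by
        rw [Finset.filter_eq_empty_iff]
        intro j _
        exact hex j
      rw [this]
      simp
  -- events
  let good : V → ℕ → Prop := fun v k => 1 ≤ k ∧ k ≤ k0 ∧ (pop (A v) k).card + (k + 1) ≤ a
  let vert : (V × Fin b) ⊕ (V × Fin b) → V := fun e => e.elim Prod.fst Prod.fst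
  let W : (V × Fin b) ⊕ (V × Fin b) → ℕ → ℝ := fun e c => e.elim
    (fun x => if c ∈ A x.1 x.2 then 1 / (p : ℝ) else 0)
    (fun x => if good x.1 x.2 then
      ((Finset.univ.filter fun j => c ∈ A' x.1 x.2 j).card : ℝ) / (x.2 * p) else 0)
  let w : (V × Fin b) ⊕ (V × Fin b) → ℝ := fun e => e.elim
    (fun _ => Real.exp (θ * (b - k0) / p))
    (fun x => if good x.1 x.2 then
      Real.exp (θ * (2 * (a - (pop (A x.1) x.2).card : ℕ)) / p) else 0)
  have hW0 : ∀ e c, 0 ≤ W e c := by
    rintro (x | x) c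
    · simp only [W, Sum.elim_inl]
      split_ifs <;> positivity
    · simp only [W, Sum.elim_inr]
      split_ifs <;> positivity
  have hW1 : ∀ e c, W e c ≤ 1 / p := by
    rintro (x | x) c
    · simp only [W, Sum.elim_inl]
      split_ifs
      · exact le_rfl
      · positivity
    · simp only [W, Sum.elim_inr]
      split_ifs with hg
      · have hk : (0 : ℝ) < (x.2 : ℕ) := by
          have := hg.1
          exact_mod_cast this
        rw [div_le_div_iff₀ (by positivity) hpR, one_mul]
        have h1 : ((Finset.univ.filter fun j => c ∈ A' x.1 x.2 j).card : ℝ) ≤ (x.2 : ℕ) := by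
          exact_mod_cast hdegA' x.1 x.2 c
        exact mul_le_mul_of_nonneg_right h1 hpR.le
      · positivity
  have hw : ∀ e, 0 ≤ w e := by
    rintro (x | x)
    · exact (Real.exp_pos _).le
    · simp only [w, Sum.elim_inr]
      split_ifs
      · exact (Real.exp_pos _).le
      · exact le_rfl
  obtain ⟨E0, hE0, hE0c, hE⟩ := hcol a b K τ hratio hfeas hcount θ hθ0.le vert W hW0 hW1
  obtain ⟨g, hg, hcov, hgw⟩ := hE w hw
  rw [← hκ] at hgw
  have hE0R : (E0.card : ℝ) ≤ R := by exact_mod_cast hE0c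
  have haR : (b : ℝ) ≤ 8 * θ * a := by
    rw [← hqp8]
    have : (p : ℝ) * b ≤ q * a := by exact_mod_cast hratio
    rw [div_mul_eq_mul_div, le_div_iff₀ hpR]
    linarith
  -- every event has small weight
  have hevent : ∀ e, w e * Real.exp (-κ * ∑ c ∈ K \ E0, W e c) ≤
      Real.exp ((θ + κ * R - θ ^ 2 * b / 2) / p) := by
    rintro (x | x)
    · have h1 : ((a : ℝ) - R) / p ≤ ∑ c ∈ K \ E0, W (Sum.inl x) c := by
        have h2 : ∑ c ∈ K \ E0, W (Sum.inl x) c = (((K \ E0).filter fun c => c ∈ A x.1 x.2).card : ℝ) / p := by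
          simp only [W, Sum.elim_inl]
          rw [← Finset.sum_filter, Finset.sum_const, nsmul_eq_mul]
          ring
        rw [h2]
        refine div_le_div_of_nonneg_right ?_ hpR.le
        have h3 : A x.1 x.2 ⊆ ((K \ E0).filter fun c => c ∈ A x.1 x.2) ∪ E0 := by
          intro c hc
          rw [Finset.mem_union, Finset.mem_filter, Finset.mem_sdiff]
          by_cases h : c ∈ E0
          · exact Or.inr h
          · exact Or.inl ⟨⟨hAK _ _ hc, h⟩, hc⟩
        have h4 := (Finset.card_le_card h3).trans (Finset.card_union_le _ _)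
        rw [hA] at h4
        have h5 : (a : ℝ) ≤ ((K \ E0).filter fun c => c ∈ A x.1 x.2).card + E0.card := by
          exact_mod_cast h4
        linarith
      simp only [w, Sum.elim_inl]
      rw [← Real.exp_add, Real.exp_le_exp]
      have h2 : -κ * ∑ c ∈ K \ E0, W (Sum.inl x) c ≤ -κ * (((a : ℝ) - R) / p) := by
        have := mul_le_mul_of_nonneg_left h1 hκ0
        linarith
      refine (add_le_add le_rfl h2).trans ?_
      have h3 : θ * (b - k0) / p + -κ * ((a - R) / p) = (θ * (b - k0) - κ * (a - R)) / p := by ring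
      rw [h3]
      refine div_le_div_of_nonneg_right ?_ hpR.le
      have h4 : (θ - θ ^ 2 / 2) * b ≤ κ * a := by
        rw [hκ']
        have h5 : θ - θ ^ 2 / 2 ≤ 1 - Real.exp (-θ) := by linarith
        have h6 : 0 ≤ θ - θ ^ 2 / 2 := by nlinarith
        calc (θ - θ ^ 2 / 2) * b ≤ (1 - Real.exp (-θ)) * (8 * θ * a) :=
              mul_le_mul h5 haR hbR.le (h6.trans h5)
          _ = _ := by ring
      nlinarith
    · by_cases hgx : good x.1 x.2
      · simp only [w, Sum.elim_inr, hgx, if_true]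
        have hk1 : (1 : ℝ) ≤ (x.2 : ℕ) := by exact_mod_cast hgx.1
        have hk2 : ((x.2 : ℕ) : ℝ) ≤ k0 := by exact_mod_cast hgx.2.1
        obtain ⟨γ, hγ⟩ : ∃ γ : ℕ, γ = a - (pop (A x.1) x.2).card := ⟨_, rfl⟩
        have hγk : (x.2 : ℕ) + 1 ≤ γ := by
          have := hgx.2.2
          omega
        have hγk' : ((x.2 : ℕ) : ℝ) + 1 ≤ γ := by exact_mod_cast hγk
        rw [← hγ]
        have h1 : ((b : ℝ) * γ - (x.2 : ℕ) * R) / ((x.2 : ℕ) * p) ≤ ∑ c ∈ K \ E0, W (Sum.inr x) c := by
          have h2 : ∑ c ∈ K \ E0, W (Sum.inr x) c =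
              (∑ c ∈ K \ E0, ((Finset.univ.filter fun j => c ∈ A' x.1 x.2 j).card : ℝ)) /
                ((x.2 : ℕ) * p) := by
            simp only [W, Sum.elim_inr, hgx, if_true]
            rw [Finset.sum_div]
          rw [h2]
          refine div_le_div_of_nonneg_right ?_ (by positivity)
          have h3 : (b : ℝ) * γ = ∑ c ∈ K, ((Finset.univ.filter fun j => c ∈ A' x.1 x.2 j).card : ℝ) := by
            have h4 : b * γ = ∑ c ∈ K, (Finset.univ.filter fun j => c ∈ A' x.1 x.2 j).card := by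
              simp_rw [Finset.card_filter]
              rw [Finset.sum_comm]
              have h5 : ∀ j : Fin b, ∑ c ∈ K, (if c ∈ A' x.1 x.2 j then 1 else 0) = γ := by
                intro j
                rw [← Finset.card_filter, hγ, ← hA'2 x.1 x.2 j]
                congr 1
                ext c
                rw [Finset.mem_filter]
                exact ⟨fun h => h.2, fun h =>
                  ⟨hAK _ _ (Finset.mem_sdiff.mp (hA'1 x.1 x.2 j h)).1, h⟩⟩
              rw [Finset.sum_congr rfl fun j _ => h5 j, Finset.sum_const, Finset.card_univ,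
                Fintype.card_fin, smul_eq_mul]
            exact_mod_cast h4
          rw [h3, ← Finset.sum_sdiff hE0]
          have h4 : ∑ c ∈ E0, ((Finset.univ.filter fun j => c ∈ A' x.1 x.2 j).card : ℝ) ≤
              (x.2 : ℕ) * R := by
            calc ∑ c ∈ E0, ((Finset.univ.filter fun j => c ∈ A' x.1 x.2 j).card : ℝ)
                ≤ ∑ _c ∈ E0, ((x.2 : ℕ) : ℝ) :=
                  Finset.sum_le_sum fun c _ => by exact_mod_cast hdegA' x.1 x.2 c
              _ = E0.card * ((x.2 : ℕ) : ℝ) := by rw [Finset.sum_const, nsmul_eq_mul]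
              _ ≤ R * ((x.2 : ℕ) : ℝ) := mul_le_mul_of_nonneg_right hE0R (by positivity)
              _ = _ := by ring
          linarith
        rw [← Real.exp_add, Real.exp_le_exp]
        have h2 : -κ * ∑ c ∈ K \ E0, W (Sum.inr x) c ≤
            -κ * (((b : ℝ) * γ - (x.2 : ℕ) * R) / ((x.2 : ℕ) * p)) := by
          have := mul_le_mul_of_nonneg_left h1 hκ0
          linarith
        refine (add_le_add le_rfl h2).trans ?_
        have hkpos : (0 : ℝ) < (x.2 : ℕ) := by linarith
        have h3 : θ * (2 * (γ : ℝ)) / p + -κ * (((b : ℝ) * γ - (x.2 : ℕ) * R) / ((x.2 : ℕ) * p)) =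
            (2 * θ * γ - κ * (b * γ / (x.2 : ℕ)) + κ * R) / p := by
          field_simp
          ring
        rw [h3]
        refine div_le_div_of_nonneg_right ?_ hpR.le
        -- `b γ / k ≥ γ / θ` and `≥ b`
        have h4 : (γ : ℝ) ≤ θ * (b * γ / (x.2 : ℕ)) := by
          rw [← mul_div_assoc, le_div_iff₀ hkpos]
          have : ((x.2 : ℕ) : ℝ) ≤ θ * b := hk2.trans hk0a
          have hγ0 : (0 : ℝ) ≤ γ := by positivity
          nlinarith
        have h5 : (b : ℝ) ≤ b * γ / (x.2 : ℕ) := by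
          rw [le_div_iff₀ hkpos]
          nlinarith
        have h6 : 4 * θ ^ 2 * (b * γ / (x.2 : ℕ)) ≤ κ * (b * γ / (x.2 : ℕ)) :=
          mul_le_mul_of_nonneg_right hκ1 (by positivity)
        nlinarith
      · simp only [w, Sum.elim_inr, hgx, if_false, zero_mul]
        exact (Real.exp_pos _).le
  have htotal : ∑ e, w e * Real.exp (-θ * ∑ c ∈ K.filter (fun c => vert e ∈ g c), W e c) < 1 := by
    refine lt_of_le_of_lt (hgw.trans (Finset.sum_le_sum fun e _ => hevent e)) ?_
    rw [Finset.sum_const, Finset.card_univ, Fintype.card_sum, Fintype.card_prod, Fintype.card_fin,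
      nsmul_eq_mul]
    push_cast
    calc ((Fintype.card V : ℝ) * b + Fintype.card V * b) *
          Real.exp ((θ + κ * R - θ ^ 2 * b / 2) / p)
        = 2 * Fintype.card V * b * Real.exp ((θ + κ * R - θ ^ 2 * b / 2) / p) := by ring
      _ < 1 := hnum
  have hsingle : ∀ e, w e * Real.exp (-θ * ∑ c ∈ K.filter (fun c => vert e ∈ g c), W e c) < 1 := by
    intro e
    refine lt_of_le_of_lt ?_ htotal
    exact Finset.single_le_sum (f := fun e => w e * Real.exp (-θ *
      ∑ c ∈ K.filter (fun c => vert e ∈ g c), W e c)) (fun e _ =>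
        mul_nonneg (hw e) (Real.exp_pos _).le) (Finset.mem_univ e)
  -- Hall at every vertex
  have hHall : ∀ v, ∃ f : Fin b → ℕ, Function.Injective f ∧
      ∀ j, f j ∈ A v j ∩ K.filter (fun c => v ∈ g c) := by
    intro v
    refine hall_lists (A v) (B v) (hB1 v) (hB2 v) (hB3 v) (K.filter fun c => v ∈ g c) ?_ k0 ?_ ?_
    · refine (hcov v).trans (Finset.card_le_card ?_)
      intro c hc
      rw [Finset.mem_filter, hτB] at hc
      rw [Finset.mem_inter, Finset.mem_filter]
      exact ⟨hc.2.1, hc.1, hc.2.2⟩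
    · intro j
      have h1 := hsingle (Sum.inl (v, j))
      simp only [w, Sum.elim_inl] at h1
      rw [← Real.exp_add, Real.exp_lt_one_iff] at h1
      have h2 : ∑ c ∈ K.filter (fun c => vert (Sum.inl (v, j)) ∈ g c), W (Sum.inl (v, j)) c =
          ((A v j ∩ K.filter fun c => v ∈ g c).card : ℝ) / p := by
        simp only [W, Sum.elim_inl]
        rw [← Finset.sum_filter, Finset.sum_const, nsmul_eq_mul]
        have : ((K.filter fun c => vert (Sum.inl (v, j)) ∈ g c).filter fun c => c ∈ A v j) =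
            A v j ∩ K.filter fun c => v ∈ g c := by
          ext c
          constructor
          · intro h
            have h3 := Finset.mem_filter.mp h
            have h4 := Finset.mem_filter.mp h3.1
            exact Finset.mem_inter.mpr ⟨h3.2, Finset.mem_filter.mpr ⟨h4.1, h4.2⟩⟩
          · intro h
            have h3 := Finset.mem_inter.mp h
            have h4 := Finset.mem_filter.mp h3.2
            exact Finset.mem_filter.mpr ⟨Finset.mem_filter.mpr ⟨h4.1, h4.2⟩, h3.1⟩
        rw [this]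
        ring
      rw [h2] at h1
      clear h2
      have h3 : θ * (((b : ℝ) - k0 - (A v j ∩ K.filter fun c => v ∈ g c).card) / p) < 0 := by
        calc θ * (((b : ℝ) - k0 - (A v j ∩ K.filter fun c => v ∈ g c).card) / p) =
            θ * (b - k0) / p + -θ * ((A v j ∩ K.filter fun c => v ∈ g c).card / p) := by ring
          _ < 0 := h1
      have h4 : (b : ℝ) - k0 - (A v j ∩ K.filter fun c => v ∈ g c).card < 0 := by
        by_contra hcon
        push Not at hcon
        exact absurd h3 (not_lt.mpr (by positivity))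
      have h5 : (b : ℝ) < ((A v j ∩ K.filter fun c => v ∈ g c).card + k0 : ℕ) := by
        push_cast
        linarith
      exact_mod_cast h5.le
    · intro k γ hk1 hk2 hγ hγk
      have hkb : k < b := by
        have h1 : (k : ℝ) ≤ θ * b := le_trans (by exact_mod_cast hk2) hk0a
        have h2 : θ < 1 := by
          rw [hθ, div_lt_one (by positivity)]
          have : (q : ℝ) ≤ p := by exact_mod_cast hqp
          linarith
        have h3 : (k : ℝ) < b := by nlinarith
        exact_mod_cast h3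
      have hgd : good v ((⟨k, hkb⟩ : Fin b) : ℕ) := ⟨hk1, hk2, by change (pop (A v) k).card + (k + 1) ≤ a; omega⟩
      have hγ' : a - (pop (A v) k).card = γ := by omega
      refine ⟨A' v k, fun j => (hA'1 v k j).trans Finset.sdiff_subset, fun j => ?_, fun j x hx => ?_, ?_⟩
      · rw [hA'2 v k j, hγ']
      · have := (Finset.mem_sdiff.mp (hA'1 v k j hx)).2
        rw [mem_pop] at this
        omega
      · have h1 := hsingle (Sum.inr (v, ⟨k, hkb⟩))
        simp only [w, Sum.elim_inr, hgd, if_true] at h1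
        rw [← Real.exp_add, Real.exp_lt_one_iff, hγ'] at h1
        have hkpos : (0 : ℝ) < k := by exact_mod_cast hk1
        have h2 : ∑ c ∈ K.filter (fun c => vert (Sum.inr (v, ⟨k, hkb⟩)) ∈ g c), W (Sum.inr (v, ⟨k, hkb⟩)) c =
            (∑ j, ((A' v k j ∩ K.filter fun c => v ∈ g c).card : ℝ)) / (k * p) := by
          simp only [W, Sum.elim_inr, hgd, if_true]
          rw [← Finset.sum_div]
          congr 1
          have h3 : ∑ c ∈ K.filter (fun c => vert (Sum.inr (v, ⟨k, hkb⟩)) ∈ g c), (Finset.univ.filter fun j => c ∈ A' v k j).card =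
              ∑ j, (A' v k j ∩ K.filter fun c => v ∈ g c).card := by
            simp_rw [Finset.card_filter]
            rw [Finset.sum_comm]
            refine Finset.sum_congr rfl fun j _ => ?_
            rw [← Finset.card_filter]
            congr 1
            ext c
            constructor
            · intro h
              have h3 := Finset.mem_filter.mp h
              have h4 := Finset.mem_filter.mp h3.1
              exact Finset.mem_inter.mpr ⟨h3.2, Finset.mem_filter.mpr ⟨h4.1, h4.2⟩⟩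
            · intro h
              have h3 := Finset.mem_inter.mp h
              have h4 := Finset.mem_filter.mp h3.2
              exact Finset.mem_filter.mpr ⟨Finset.mem_filter.mpr ⟨h4.1, h4.2⟩, h3.1⟩
          exact_mod_cast h3
        rw [h2] at h1
        have h3 : θ * ((2 * k * γ - ∑ j, ((A' v k j ∩ K.filter fun c => v ∈ g c).card : ℝ)) / (k * p)) < 0 := by
          calc θ * ((2 * k * γ - ∑ j, ((A' v k j ∩ K.filter fun c => v ∈ g c).card : ℝ)) / (k * p)) =
              θ * (2 * (γ : ℝ)) / p +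
                -θ * ((∑ j, ((A' v k j ∩ K.filter fun c => v ∈ g c).card : ℝ)) / (k * p)) := by
                field_simp
                ring
            _ < 0 := h1
        have h4 : 2 * k * γ - ∑ j, ((A' v k j ∩ K.filter fun c => v ∈ g c).card : ℝ) < 0 := by
          by_contra hcon
          push Not at hcon
          exact absurd h3 (not_lt.mpr (by positivity))
        have h5 : ((2 * k * γ : ℕ) : ℝ) < ((∑ j, (A' v k j ∩ K.filter fun c => v ∈ g c).card : ℕ) : ℝ) := by
          push_cast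
          linarith
        exact_mod_cast h5.le
  choose f hf1 hf2 using hHall
  refine ⟨fun x => f x.1 x.2, fun x => ?_, fun x y hxy => ?_⟩
  · have := (Finset.mem_inter.mp (hf2 x.1 x.2)).1
    rwa [hAdef] at this
  · rcases hxy with h | ⟨h, h'⟩
    · intro heq
      have h1 := (Finset.mem_filter.mp (Finset.mem_inter.mp (hf2 x.1 x.2)).2).2
      have h2 := (Finset.mem_filter.mp (Finset.mem_inter.mp (hf2 y.1 y.2)).2).2
      simp only at heq
      rw [heq] at h1
      exact hg _ _ h1 _ h2 h
    · intro heq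
      simp only at heq
      rw [h] at heq
      exact h' (hf1 _ heq)

/-- the easy direction -/
theorem easy (G : SimpleGraph V) (a b : ℕ)
    (H : ∀ L : V × Fin b → Finset ℕ, (∀ x, (L x).card = a) →
      ∃ f : V × Fin b → ℕ, (∀ x, f x ∈ L x) ∧
        ∀ x y, (G.Adj x.1 y.1 ∨ (x.1 = y.1 ∧ x.2 ≠ y.2)) → f x ≠ f y)
    (L : V → Finset ℕ) (hL : ∀ v, (L v).card = a) :
    ∃ C : V → Finset ℕ, (∀ v, C v ⊆ L v ∧ (C v).card = b) ∧
      ∀ u v, G.Adj u v → Disjoint (C u) (C v) := by
  classical
  obtain ⟨f, hf1, hf2⟩ := H (fun x => L x.1) (fun x => hL x.1)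
  refine ⟨fun v => Finset.univ.image fun j => f (v, j), fun v => ⟨?_, ?_⟩, fun u v huv => ?_⟩
  · intro c hc
    obtain ⟨j, _, rfl⟩ := Finset.mem_image.mp hc
    exact hf1 (v, j)
  · rw [Finset.card_image_of_injective, Finset.card_univ, Fintype.card_fin]
    intro i j hij
    by_contra hne
    exact hf2 (v, i) (v, j) (Or.inr ⟨rfl, hne⟩) hij
  · rw [Finset.disjoint_left]
    intro c hc hc'
    obtain ⟨i, _, hi⟩ := Finset.mem_image.mp hc
    obtain ⟨j, _, hj⟩ := Finset.mem_image.mp hc'
    exact hf2 (u, i) (v, j) (Or.inl huv) (hi.trans hj.symm)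

end Pool.Agent.H89.KW
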