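import Mathlib
import Pool.Agent.H89.KW.Main

/-!
Balanced instances of large divisible degree can be solved exactly (Alon, Tuza, Voigt), and the
consequence for inflations.
-/

set_option autoImplicit false

namespace Pool.Agent.H89.KW

open Finset

variable {V : Type*} [Fintype V] [DecidableEq V]

/-- balanced count vectors -/
def Bal (x : (Finset V → ℕ) × ℕ) : Prop :=
  x.1 ∅ = 0 ∧ ∀ v, ∑ T ∈ Finset.univ.filter (fun T : Finset V => v ∈ T), x.1 T = x.2

theorem exists_decomp [Nonempty V] : ∃ F : Finset ((Finset V → ℕ) × ℕ),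
    (∀ g ∈ F, Bal g ∧ 0 < g.2) ∧ ∀ x : (Finset V → ℕ) × ℕ, Bal x →
      ∃ n : (Finset V → ℕ) × ℕ → ℕ, (∀ T, x.1 T = ∑ g ∈ F, n g * g.1 T) ∧
        x.2 = ∑ g ∈ F, n g * g.2 := by
  classical
  obtain ⟨F, hF, hF'⟩ := exists_finite_minimal {x : (Finset V → ℕ) × ℕ | Bal x ∧ 0 < x.2}
  refine ⟨F, hF, ?_⟩
  have key : ∀ N : ℕ, ∀ x : (Finset V → ℕ) × ℕ, Bal x → x.2 ≤ N →
      ∃ n : (Finset V → ℕ) × ℕ → ℕ, (∀ T, x.1 T = ∑ g ∈ F, n g * g.1 T) ∧
        x.2 = ∑ g ∈ F, n g * g.2 := by
    intro N
    induction N with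
    | zero =>
      intro x hx hxN
      have h0 : x.2 = 0 := Nat.le_zero.mp hxN
      refine ⟨fun _ => 0, fun T => ?_, by simp [h0]⟩
      simp only [zero_mul, Finset.sum_const_zero]
      by_cases hT : T = ∅
      · rw [hT]; exact hx.1
      · obtain ⟨v, hv⟩ := Finset.nonempty_iff_ne_empty.mpr hT
        have h1 := hx.2 v
        have h2 : x.1 T ≤ ∑ T ∈ Finset.univ.filter (fun T : Finset V => v ∈ T), x.1 T :=
          Finset.single_le_sum (f := x.1) (fun _ _ => Nat.zero_le _)
            (Finset.mem_filter.mpr ⟨Finset.mem_univ _, hv⟩)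
        omega
    | succ N ih =>
      intro x hx hxN
      by_cases h0 : 0 < x.2
      · obtain ⟨m, hm, hmx⟩ := hF' x ⟨hx, h0⟩
        have hmV := hF m hm
        obtain ⟨hm1, hm2⟩ : m.1 ≤ x.1 ∧ m.2 ≤ x.2 := hmx
        have hmB := hmV.1
        have hmpos : 0 < m.2 := hmV.2
        obtain ⟨n, hn1, hn2⟩ := ih (x.1 - m.1, x.2 - m.2) (by
          constructor
          · have h1 := hx.1
            have h2 := hmB.1
            simp only [Pi.sub_apply]
            omega
          · intro v
            have h1 := hx.2 v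
            have h2 := hmB.2 v
            have h3 : ∑ T ∈ Finset.univ.filter (fun T : Finset V => v ∈ T), (x.1 - m.1) T +
                ∑ T ∈ Finset.univ.filter (fun T : Finset V => v ∈ T), m.1 T =
                ∑ T ∈ Finset.univ.filter (fun T : Finset V => v ∈ T), x.1 T := by
              rw [← Finset.sum_add_distrib]
              refine Finset.sum_congr rfl fun T _ => ?_
              have h4 : m.1 T ≤ x.1 T := hm1 T
              simp only [Pi.sub_apply]
              omega
            simp only
            omega) (by simp only; omega)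
        refine ⟨fun g => n g + if g = m then 1 else 0, fun T => ?_, ?_⟩
        · simp only [add_mul, ite_mul, one_mul, zero_mul, Finset.sum_add_distrib,
            Finset.sum_ite_eq', hm, if_true]
          have h1 := hn1 T
          have h4 : m.1 T ≤ x.1 T := hm1 T
          simp only [Pi.sub_apply] at h1
          omega
        · simp only [add_mul, ite_mul, one_mul, zero_mul, Finset.sum_add_distrib,
            Finset.sum_ite_eq', hm, if_true]
          simp only at hn2
          omega
      · have h1 : x.2 = 0 := by omega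
        exact ih x hx (by omega)
  intro x hx
  exact key _ x hx le_rfl

theorem sum_cnt (K : Finset ℕ) (τ : ℕ → Finset V) (v : V) :
    ∑ T ∈ Finset.univ.filter (fun T : Finset V => v ∈ T), cnt K τ T =
      (K.filter fun c => v ∈ τ c).card := by
  classical
  unfold cnt
  rw [Finset.card_eq_sum_card_fiberwise (f := τ) (s := K.filter fun c => v ∈ τ c)
    (t := Finset.univ.filter fun T : Finset V => v ∈ T)]
  · refine Finset.sum_congr rfl fun T hT => ?_
    rw [Finset.mem_filter] at hT
    congr 1
    ext c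
    simp only [Finset.mem_filter]
    constructor
    · rintro ⟨h1, h2⟩
      exact ⟨⟨h1, by rw [h2]; exact hT.2⟩, h2⟩
    · rintro ⟨⟨h1, _⟩, h2⟩
      exact ⟨h1, h2⟩
  · intro c hc
    have hc' := (Finset.mem_filter.mp hc).2
    simpa using hc'

/-- choose a part of `K` with prescribed numbers of colours of each type -/
theorem exists_part (K : Finset ℕ) (τ : ℕ → Finset V) (m : Finset V → ℕ)
    (hm : ∀ T, m T ≤ cnt K τ T) : ∃ D ⊆ K, ∀ T, cnt D τ T = m T := by
  classical
  have h1 : ∀ T, ∃ D ⊆ K.filter (fun c => τ c = T), D.card = m T := fun T =>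
    Finset.exists_subset_card_eq (hm T)
  choose D hD1 hD2 using h1
  refine ⟨Finset.univ.biUnion D, ?_, fun T => ?_⟩
  · intro c hc
    obtain ⟨T, _, hT⟩ := Finset.mem_biUnion.mp hc
    exact (Finset.mem_filter.mp (hD1 T hT)).1
  · rw [← hD2 T]
    unfold cnt
    congr 1
    ext c
    simp only [Finset.mem_filter, Finset.mem_biUnion, Finset.mem_univ, true_and]
    constructor
    · rintro ⟨⟨T', hT'⟩, h⟩
      have := (Finset.mem_filter.mp (hD1 T' hT')).2
      rw [← h, this]
      exact hT'
    · intro h
      exact ⟨⟨T, h⟩, (Finset.mem_filter.mp (hD1 T h)).2⟩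

theorem cnt_sdiff' {K D : Finset ℕ} {τ : ℕ → Finset V} (hDK : D ⊆ K) (T : Finset V) :
    cnt (K \ D) τ T + cnt D τ T = cnt K τ T := by
  classical
  unfold cnt
  rw [← Finset.card_union_of_disjoint]
  · congr 1
    ext c
    simp only [Finset.mem_union, Finset.mem_filter, Finset.mem_sdiff]
    constructor
    · rintro (⟨⟨h1, _⟩, h2⟩ | ⟨h1, h2⟩)
      · exact ⟨h1, h2⟩
      · exact ⟨hDK h1, h2⟩
    · rintro ⟨h1, h2⟩
      by_cases h3 : c ∈ D
      · exact Or.inr ⟨h3, h2⟩
      · exact Or.inl ⟨⟨h1, h3⟩, h2⟩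
  · rw [Finset.disjoint_left]
    intro c hc hc'
    rw [Finset.mem_filter, Finset.mem_sdiff] at hc
    exact hc.1.2 (Finset.mem_filter.mp hc').1

theorem quota {G : SimpleGraph V} {p : ℕ} [NeZero p] {σ : ZMod p → Finset V}
    (hσ : ∀ i, Ind G (σ i)) {F : Finset ((Finset V → ℕ) × ℕ)}
    (hF : ∀ g ∈ F, Bal g ∧ 0 < g.2) {Q : ℕ} (hQ0 : 0 < Q) (hQ : ∀ g ∈ F, g.2 ∣ Q)
    (τ : ℕ → Finset V) (i0 : ZMod p) :
    ∀ (N : ℕ) (K : Finset ℕ) (n : (Finset V → ℕ) × ℕ → ℕ) (x : ZMod p → ℕ),
      ∑ g ∈ F, n g ≤ N → (∀ T, T ≠ ∅ → cnt K τ T = ∑ g ∈ F, n g * g.1 T) →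
      Q * ∑ i, x i = ∑ g ∈ F, n g * g.2 → (F.card ≤ x i0 ∨ ∀ i, i ≠ i0 → x i = 0) →
      ∃ g : ℕ → Finset V, (∀ c, Ind G (g c)) ∧
        ∀ v, Q * ∑ i ∈ Finset.univ.filter (fun i => v ∈ σ i), x i ≤ cov K τ g v := by
  classical
  intro N
  -- degree of a part
  have hdeg : ∀ (K : Finset ℕ) (n : (Finset V → ℕ) × ℕ → ℕ),
      (∀ T, T ≠ ∅ → cnt K τ T = ∑ g ∈ F, n g * g.1 T) → ∀ v,
      (K.filter fun c => v ∈ τ c).card = ∑ g ∈ F, n g * g.2 := by
    intro K n hn v
    rw [← sum_cnt]
    calc ∑ T ∈ Finset.univ.filter (fun T : Finset V => v ∈ T), cnt K τ T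
        = ∑ T ∈ Finset.univ.filter (fun T : Finset V => v ∈ T), ∑ g ∈ F, n g * g.1 T := by
          refine Finset.sum_congr rfl fun T hT => hn T ?_
          rintro rfl
          simp at hT
      _ = ∑ g ∈ F, n g * ∑ T ∈ Finset.univ.filter (fun T : Finset V => v ∈ T), g.1 T := by
          rw [Finset.sum_comm]
          refine Finset.sum_congr rfl fun g _ => ?_
          rw [Finset.mul_sum]
      _ = _ := Finset.sum_congr rfl fun g hg => by rw [(hF g hg).1.2 v]
  have hbase : ∀ (K : Finset ℕ) (n : (Finset V → ℕ) × ℕ → ℕ) (x : ZMod p → ℕ),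
      (∀ T, T ≠ ∅ → cnt K τ T = ∑ g ∈ F, n g * g.1 T) →
      Q * ∑ i, x i = ∑ g ∈ F, n g * g.2 → (F.card ≤ x i0 ∨ ∀ i, i ≠ i0 → x i = 0) →
      (∀ g ∈ F, n g * g.2 < Q) →
      ∃ g : ℕ → Finset V, (∀ c, Ind G (g c)) ∧
        ∀ v, Q * ∑ i ∈ Finset.univ.filter (fun i => v ∈ σ i), x i ≤ cov K τ g v := by
    intro K n x hn hx hor hlt
    have hsum : ∑ g ∈ F, n g * g.2 ≤ F.card * Q := by
      rw [← smul_eq_mul, ← Finset.sum_const]
      exact Finset.sum_le_sum fun g hg => (hlt g hg).le
    have hoth : ∀ i, i ≠ i0 → x i = 0 := by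
      rcases hor with h | h
      · by_cases hFe : F = ∅
        · subst hFe
          rw [Finset.sum_empty] at hx
          have h1 : ∑ i, x i = 0 := by
            rcases Nat.mul_eq_zero.mp hx with h2 | h2
            · omega
            · exact h2
          intro i _
          exact (Finset.sum_eq_zero_iff.mp h1) i (Finset.mem_univ i)
        · exfalso
          have h1 : ∑ g ∈ F, n g * g.2 < F.card * Q := by
            rw [← smul_eq_mul, ← Finset.sum_const]
            exact Finset.sum_lt_sum_of_nonempty (Finset.nonempty_iff_ne_empty.mpr hFe) hlt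
          have h2 : x i0 ≤ ∑ i, x i := Finset.single_le_sum (fun _ _ => Nat.zero_le _) (Finset.mem_univ i0)
          have h3 : Q * F.card ≤ Q * ∑ i, x i := Nat.mul_le_mul_left _ (h.trans h2)
          rw [hx] at h3
          nlinarith
      · exact h
    refine ⟨fun _ => σ i0, fun _ => hσ i0, fun v => ?_⟩
    by_cases hv : v ∈ σ i0
    · have h1 : cov K τ (fun _ => σ i0) v = ∑ g ∈ F, n g * g.2 := by
        rw [← hdeg K n hn v]
        unfold cov
        congr 1
        ext c
        simp [hv]
      rw [h1, ← hx]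
      exact Nat.mul_le_mul_left _ (Finset.sum_le_sum_of_subset (Finset.filter_subset _ _))
    · have h1 : ∑ i ∈ Finset.univ.filter (fun i => v ∈ σ i), x i = 0 := by
        refine Finset.sum_eq_zero fun i hi => hoth i ?_
        rintro rfl
        exact hv (Finset.mem_filter.mp hi).2
      rw [h1, mul_zero]
      exact Nat.zero_le _
  induction N with
  | zero =>
    intro K n x hN hn hx hor
    refine hbase K n x hn hx hor fun g hg => ?_
    have : n g ≤ ∑ g ∈ F, n g := Finset.single_le_sum (f := n) (fun _ _ => Nat.zero_le _) hg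
    have h0 : n g = 0 := by omega
    rw [h0, zero_mul]
    exact hQ0
  | succ N ih =>
    intro K n x hN hn hx hor
    by_cases hex : ∀ g ∈ F, n g * g.2 < Q
    · exact hbase K n x hn hx hor hex
    push Not at hex
    obtain ⟨h, hh, hhQ⟩ := hex
    obtain ⟨e, he⟩ := hQ h hh
    have hh2 : 0 < h.2 := (hF h hh).2
    have he0 : 0 < e := by
      rcases Nat.eq_zero_or_pos e with h1 | h1
      · rw [h1, mul_zero] at he; omega
      · exact h1
    have hne : e ≤ n h := by
      rw [he, mul_comm] at hhQ
      exact Nat.le_of_mul_le_mul_right hhQ hh2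
    -- choose the index
    obtain ⟨i, hi0, hior⟩ : ∃ i, 0 < x i ∧ (i ≠ i0 ∨ ∀ j, j ≠ i0 → x j = 0) := by
      by_cases h1 : ∃ i, i ≠ i0 ∧ 0 < x i
      · obtain ⟨i, h2, h3⟩ := h1
        exact ⟨i, h3, Or.inl h2⟩
      · push Not at h1
        have h2 : ∀ j, j ≠ i0 → x j = 0 := fun j hj => Nat.le_zero.mp (h1 j hj)
        refine ⟨i0, ?_, Or.inr h2⟩
        by_contra h3
        have h4 : ∑ i, x i = 0 := by
          refine Finset.sum_eq_zero fun j _ => ?_
          by_cases hj : j = i0
          · rw [hj]; omega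
          · exact h2 j hj
        rw [h4, mul_zero] at hx
        have h5 : n h * h.2 ≤ ∑ g ∈ F, n g * g.2 :=
          Finset.single_le_sum (f := fun g => n g * g.2) (fun _ _ => Nat.zero_le _) hh
        omega
    -- the block
    obtain ⟨D, hDK, hD⟩ := exists_part K τ (fun T => e * h.1 T) (by
      intro T
      by_cases hT : T = ∅
      · rw [hT, (hF h hh).1.1]; simp
      · rw [hn T hT]
        calc e * h.1 T ≤ n h * h.1 T := Nat.mul_le_mul_right _ hne
          _ ≤ _ := Finset.single_le_sum (f := fun g => n g * g.1 T) (fun _ _ => Nat.zero_le _) hh)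
    let n' : (Finset V → ℕ) × ℕ → ℕ := fun g => if g = h then n g - e else n g
    let x' : ZMod p → ℕ := fun j => if j = i then x j - 1 else x j
    have hsumn : ∀ f : (Finset V → ℕ) × ℕ → ℕ,
        ∑ g ∈ F, n' g * f g + e * f h = ∑ g ∈ F, n g * f g := by
      intro f
      rw [← Finset.sum_erase_add _ _ hh, ← Finset.sum_erase_add F (fun g => n g * f g) hh]
      have h1 : ∑ g ∈ F.erase h, n' g * f g = ∑ g ∈ F.erase h, n g * f g :=
        Finset.sum_congr rfl fun g hg => by
          simp only [n', Finset.ne_of_mem_erase hg, if_false]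
      rw [h1]
      simp only [n', if_true]
      have h2 : (n h - e) * f h + e * f h = n h * f h := by
        rw [← add_mul]
        congr 1
        omega
      omega
    have hsumx : ∀ s : Finset (ZMod p), ∑ j ∈ s, x' j + (if i ∈ s then 1 else 0) = ∑ j ∈ s, x j := by
      intro s
      split_ifs with his
      · rw [← Finset.sum_erase_add _ _ his, ← Finset.sum_erase_add s x his]
        have h1 : ∑ j ∈ s.erase i, x' j = ∑ j ∈ s.erase i, x j :=
          Finset.sum_congr rfl fun j hj => by
            simp only [x', Finset.ne_of_mem_erase hj, if_false]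
        rw [h1]
        simp only [x', if_true]
        omega
      · rw [add_zero]
        refine Finset.sum_congr rfl fun j hj => ?_
        have : j ≠ i := fun hji => his (hji ▸ hj)
        simp only [x', this, if_false]
    obtain ⟨g', hg', hcov⟩ := ih (K \ D) n' x' (by
        have h1 := hsumn fun _ => 1
        simp only [mul_one] at h1
        omega) (by
        intro T hT
        have h1 := cnt_sdiff' (τ := τ) hDK T
        have h2 := hsumn fun g => g.1 T
        rw [hD T, hn T hT] at h1
        omega) (by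
        have h1 := hsumn fun g => g.2
        have h2 := hsumx Finset.univ
        simp only [Finset.mem_univ, if_true] at h2
        have h3 : Q * (∑ j, x' j + 1) = Q * ∑ j, x j := by rw [h2]
        rw [mul_add, mul_one, hx, ← h1] at h3
        have h4 : e * h.2 = Q := by rw [he]; ring
        omega) (by
        rcases hior with h1 | h1
        · rcases hor with h2 | h2
          · left
            simp only [x']
            have : i0 ≠ i := fun h3 => h1 h3.symm
            simp only [this, if_false]
            exact h2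
          · exfalso
            have := h2 i h1
            omega
        · right
          intro j hj
          have := h1 j hj
          simp only [x']
          split_ifs <;> omega)
    refine ⟨fun c => if c ∈ D then σ i else g' c, fun c => ?_, fun v => ?_⟩
    · by_cases hc : c ∈ D
      · simp only [hc, if_true]; exact hσ i
      · simp only [hc, if_false]; exact hg' c
    · have h1 := hcov v
      have h2 := hsumx (Finset.univ.filter fun i => v ∈ σ i)
      have h3 : cov (K \ D) τ g' v + (if v ∈ σ i then Q else 0) ≤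
          cov K τ (fun c => if c ∈ D then σ i else g' c) v := by
        unfold cov
        have hsub : ((K \ D).filter fun c => v ∈ τ c ∧ v ∈ g' c) ∪
            (D.filter fun c => v ∈ τ c ∧ v ∈ σ i) ⊆
            K.filter fun c => v ∈ τ c ∧ v ∈ (if c ∈ D then σ i else g' c) := by
          intro c hc
          rw [Finset.mem_union, Finset.mem_filter, Finset.mem_filter, Finset.mem_sdiff] at hc
          rw [Finset.mem_filter]
          rcases hc with ⟨⟨hc1, hc2⟩, hc3, hc4⟩ | ⟨hc1, hc2, hc3⟩
          · exact ⟨hc1, hc3, by simp only [hc2, if_false]; exact hc4⟩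
          · exact ⟨hDK hc1, hc2, by simp only [hc1, if_true]; exact hc3⟩
        refine le_trans ?_ (Finset.card_le_card hsub)
        rw [Finset.card_union_of_disjoint]
        · refine Nat.add_le_add_left ?_ _
          split_ifs with hv
          · have h4 : (D.filter fun c => v ∈ τ c).card = Q := by
              rw [← sum_cnt]
              calc ∑ T ∈ Finset.univ.filter (fun T : Finset V => v ∈ T), cnt D τ T
                  = ∑ T ∈ Finset.univ.filter (fun T : Finset V => v ∈ T), e * h.1 T :=
                    Finset.sum_congr rfl fun T _ => hD T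
                _ = e * h.2 := by rw [← Finset.mul_sum, (hF h hh).1.2 v]
                _ = Q := by rw [he]; ring
            rw [← h4]
            refine Finset.card_le_card fun c hc => ?_
            rw [Finset.mem_filter] at hc ⊢
            exact ⟨hc.1, hc.2, hv⟩
          · exact Nat.zero_le _
        · rw [Finset.disjoint_left]
          intro c hc hc'
          rw [Finset.mem_filter, Finset.mem_sdiff] at hc
          exact hc.1.2 (Finset.mem_filter.mp hc').1
      refine le_trans ?_ h3
      rw [← h2, mul_add]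
      have h4 : Q * (if i ∈ Finset.univ.filter (fun i => v ∈ σ i) then 1 else 0) =
          (if v ∈ σ i then Q else 0) := by
        simp
      omega

/-- the inflation graph -/
def Infl {V : Type} (G : SimpleGraph V) (b : ℕ) : SimpleGraph (V × Fin b) where
  Adj x y := G.Adj x.1 y.1 ∨ (x.1 = y.1 ∧ x.2 ≠ y.2)
  symm := ⟨fun _ _ h => h.elim (fun h => Or.inl h.symm) fun h => Or.inr ⟨h.1.symm, h.2.symm⟩⟩
  loopless := ⟨fun x h => h.elim (fun h => G.loopless.irrefl _ h) fun h => h.2 rfl⟩

theorem infl_main {V : Type} [Fintype V] (G : SimpleGraph V) :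
    ∃ m : ℕ, 0 < m ∧ ∃ t₀ : ℕ, ∀ t, t₀ ≤ t → ∃ a : ℕ,
      (∀ L : V × Fin (m * t) → Finset ℕ, (∀ x, (L x).card = a) →
        ∃ f : V × Fin (m * t) → ℕ, (∀ x, f x ∈ L x) ∧
          ∀ x y, (Infl G (m * t)).Adj x y → f x ≠ f y) ∧
      ∀ c : ℕ, (Infl G (m * t)).Colorable c → a ≤ c := by
  classical
  by_cases hV : Nonempty V
  swap
  · rw [not_nonempty_iff] at hV
    exact ⟨1, Nat.one_pos, 0, fun t _ => ⟨0, fun L _ => ⟨fun x => 0, fun x => (hV.false x.1).elim,
      fun x => (hV.false x.1).elim⟩, fun c _ => Nat.zero_le _⟩⟩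
  obtain ⟨p, q, σ0, hp, hq0, hσ0, hσq, hopt⟩ := exists_frac G
  have hpne : NeZero p := ⟨hp.ne'⟩
  have hce : Fintype.card (ZMod p) = Fintype.card (Fin p) := by rw [ZMod.card, Fintype.card_fin]
  let ee : ZMod p ≃ Fin p := Fintype.equivOfCardEq hce
  let σ : ZMod p → Finset V := fun i => σ0 (ee i)
  have hσ : ∀ i, Ind G (σ i) := fun i => hσ0 _
  have hq : ∀ v, q ≤ (Finset.univ.filter fun i => v ∈ σ i).card := by
    intro v
    refine (hσq v).trans (le_of_eq ?_)
    symm
    refine Finset.card_bij (fun i _ => ee i) ?_ ?_ ?_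
    · intro i hi
      simpa [σ] using hi
    · intro i _ j _ h
      exact ee.injective h
    · intro i hi
      exact ⟨ee.symm i, by simpa [σ] using hi, by simp⟩
  obtain ⟨F, hF, hdec⟩ := exists_decomp (V := V)
  obtain ⟨Q, hQdef⟩ : ∃ Q : ℕ, Q = ∏ g ∈ F, g.2 := ⟨_, rfl⟩
  have hQ0 : 0 < Q := by rw [hQdef]; exact Finset.prod_pos fun g hg => (hF g hg).2
  have hQd : ∀ g ∈ F, g.2 ∣ Q := fun g hg => by rw [hQdef]; exact Finset.dvd_prod_of_mem _ hg
  obtain ⟨b₀, hb₀⟩ := main_large G
  refine ⟨q * Q, Nat.mul_pos hq0 hQ0, max b₀ F.card, fun t ht => ⟨p * Q * t, ?_, ?_⟩⟩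
  · -- choosability
    have hbt : b₀ ≤ q * Q * t := by
      have h1 : 1 ≤ q * Q := Nat.mul_pos hq0 hQ0
      have h2 : b₀ ≤ t := (le_max_left _ _).trans ht
      nlinarith
    refine fun L hL => hb₀ (q * Q * t) hbt (p * Q * t) ?_ L hL
    intro B hB
    -- the instance
    obtain ⟨K, hK⟩ : ∃ K : Finset ℕ, K = Finset.univ.biUnion B := ⟨_, rfl⟩
    obtain ⟨τ, hτ⟩ : ∃ τ : ℕ → Finset V, ∀ c, τ c = Finset.univ.filter fun v => c ∈ B v :=
      ⟨_, fun _ => rfl⟩
    have hτB : ∀ v c, v ∈ τ c ↔ c ∈ B v := fun v c => by rw [hτ]; simp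
    have hBK : ∀ v, B v ⊆ K := fun v => by
      rw [hK]; exact Finset.subset_biUnion_of_mem B (Finset.mem_univ v)
    have hcount : ∀ v, (K.filter fun c => v ∈ τ c) = B v := by
      intro v
      ext c
      rw [Finset.mem_filter, hτB]
      exact ⟨fun h => h.2, fun h => ⟨hBK v h, h⟩⟩
    obtain ⟨n, hn1, hn2⟩ := hdec (fun T => if T = ∅ then 0 else cnt K τ T, p * Q * t) (by
      constructor
      · simp
      · intro v
        simp only
        rw [← hB v, ← hcount v, ← sum_cnt]
        refine Finset.sum_congr rfl fun T hT => ?_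
        have : T ≠ ∅ := by
          rintro rfl
          simp at hT
        simp [this])
    obtain ⟨g, hg, hcov⟩ := quota hσ hF hQ0 hQd τ 0 _ K n (fun _ => t) le_rfl (by
        intro T hT
        have := hn1 T
        simp only [hT, if_false] at this
        exact this) (by
        rw [Finset.sum_const, Finset.card_univ, ZMod.card, smul_eq_mul]
        simp only at hn2
        rw [← hn2]
        ring) (Or.inl ((le_max_right _ _).trans ht))
    have hbig : ∀ v, q * Q * t ≤ ((B v).filter fun c => v ∈ g c).card := by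
      intro v
      have h1 := hcov v
      rw [Finset.sum_const, smul_eq_mul] at h1
      have h2 : cov K τ g v = ((B v).filter fun c => v ∈ g c).card := by
        unfold cov
        congr 1
        ext c
        rw [Finset.mem_filter, Finset.mem_filter, hτB]
        exact ⟨fun h => ⟨h.2.1, h.2.2⟩, fun h => ⟨hBK v h.1, h.1, h.2⟩⟩
      rw [h2] at h1
      refine le_trans ?_ h1
      have h3 := hq v
      calc q * Q * t = Q * (q * t) := by ring
        _ ≤ _ := Nat.mul_le_mul_left _ (Nat.mul_le_mul_right _ h3)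
    choose C hC1 hC2 using fun v => Finset.exists_subset_card_eq (hbig v)
    refine ⟨C, fun v => ⟨(hC1 v).trans (Finset.filter_subset _ _), hC2 v⟩, fun u v huv => ?_⟩
    rw [Finset.disjoint_left]
    intro c hc hc'
    exact hg c u (Finset.mem_filter.mp (hC1 u hc)).2 v (Finset.mem_filter.mp (hC1 v hc')).2 huv
  · -- lower bound for the chromatic number
    intro c hc
    obtain ⟨φ⟩ := hc
    have h1 := hopt c (q * Q * t) (fun i => Finset.univ.filter fun v => ∃ j, φ (v, j) = i)
      (fun i u hu v hv huv => by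
        obtain ⟨j, hj⟩ := (Finset.mem_filter.mp hu).2
        obtain ⟨j', hj'⟩ := (Finset.mem_filter.mp hv).2
        exact φ.valid (show (Infl G (q * Q * t)).Adj (u, j) (v, j') from Or.inl huv)
          (hj.trans hj'.symm)) (fun v => by
        have h2 : (Finset.univ.image fun j : Fin (q * Q * t) => φ (v, j)).card = q * Q * t := by
          rw [Finset.card_image_of_injective, Finset.card_univ, Fintype.card_fin]
          intro j j' hjj
          by_contra hne
          exact φ.valid (show (Infl G (q * Q * t)).Adj (v, j) (v, j') from Or.inr ⟨rfl, hne⟩) hjj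
        refine (le_of_eq h2.symm).trans ?_
        refine Finset.card_le_card fun i hi => ?_
        obtain ⟨j, _, hj⟩ := Finset.mem_image.mp hi
        exact Finset.mem_filter.mpr ⟨Finset.mem_univ _,
          Finset.mem_filter.mpr ⟨Finset.mem_univ _, ⟨j, hj⟩⟩⟩)
    have h2 : q * (p * Q * t) ≤ q * c := by
      calc q * (p * Q * t) = p * (q * Q * t) := by ring
        _ ≤ q * c := h1
    exact Nat.le_of_mul_le_mul_left h2 hq0

end Pool.Agent.H89.KW
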